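import Mathlib
import Pool.Agent.H52.GS.C7
import Pool.Agent.H52.GS.C5
import Pool.Agent.H52.GS.C4
import Pool.Agent.H52.GS.C3

/-!
# TS-T1 (helper25): generators of stabilisers, inversion, torsion

`Sg Γ σ z`: `σ ∈ Γ` is not trivial, fixes `z`, and every element of `Γ` fixing a fixed point of `σ`
is a power of `σ`.  `Tor f`: a positive power of `f` is a power of the translation.
-/

set_option autoImplicit false
open Set Filter Topology MeasureTheory Metric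
open Pool.Agent.H52.GS

namespace Pool.Agent.H25.TS

/-- torsion modulo the translation -/
def Tor (f : ℝ ≃o ℝ) : Prop := ∃ q : ℕ, 0 < q ∧ ∃ k : ℤ, f ^ q = TT ^ k

/-- `σ` generates the stabiliser of all its fixed points -/
structure Sg (Γ : Subgroup (ℝ ≃o ℝ)) (σ : ℝ ≃o ℝ) (z : ℝ) : Prop where
  mem : σ ∈ Γ
  ne : σ ≠ 1
  fix : σ z = z
  stab : ∀ z' : ℝ, σ z' = z' → ∀ f ∈ Γ, f z' = z' → ∃ k : ℤ, f = σ ^ k

variable {Γ : Subgroup (ℝ ≃o ℝ)}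

theorem TT_zpow_inj {k : ℤ} {z : ℝ} (h : (TT ^ k) z = z) : k = 0 := by
  rw [TT_zpow] at h
  have h1 : (k : ℝ) * (2 * Real.pi) = 0 := by linarith
  have h2 : (2 * Real.pi) ≠ 0 := by positivity
  have h3 : (k : ℝ) = 0 := by
    rcases mul_eq_zero.1 h1 with h | h
    · exact h
    · exact absurd h h2
  exact_mod_cast h3

/-- a torsion element with a fixed point is trivial -/
theorem Tor.fix {f : ℝ ≃o ℝ} (hf : Tor f) {z : ℝ} (hz : f z = z) : f = 1 := by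
  obtain ⟨q, hq, k, hk⟩ := hf
  have h1 : (f ^ q) z = z := by
    have := fixed_zpow (q : ℤ) hz
    rwa [zpow_natCast] at this
  rw [hk] at h1
  have h2 := TT_zpow_inj h1
  rw [h2, zpow_zero] at hk
  refine zpow_eq_one (s := f) (k := (q : ℤ)) (by exact_mod_cast hq.ne') ?_
  rw [zpow_natCast]
  exact hk

theorem Sg.ne' {σ : ℝ ≃o ℝ} {z : ℝ} (hS : Sg Γ σ z) {a : ℤ} (ha : a ≠ 0) : σ ^ a ≠ 1 :=
  fun h => hS.ne (zpow_eq_one ha h)

theorem Sg.zinj {σ : ℝ ≃o ℝ} {z : ℝ} (hS : Sg Γ σ z) {a b : ℤ} (h : σ ^ a = σ ^ b) : a = b := by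
  by_contra hne
  refine hS.ne' (a := a - b) (by omega) ?_
  rw [zpow_sub, h, mul_inv_cancel]

theorem sg_of (h : Gp Γ) {c : ℝ ≃o ℝ} (hc : c ∈ Γ) (hc1 : c ≠ 1) {z : ℝ} (hz : c z = z) :
    ∃ σ, Sg Γ σ z ∧ ∃ a : ℤ, a ≠ 0 ∧ c = σ ^ a := by
  obtain ⟨σ, hσ, a, ha, hca, hfix, hst⟩ := stab_facts h hc hc1 hz
  refine ⟨σ, ⟨hσ, ?_, (hfix z).2 hz, fun z' hz' f hf hfz => hst z' ((hfix z').1 hz') f hf hfz⟩,
    a, ha, hca⟩
  rintro rfl
  rw [one_zpow] at hca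
  exact hc1 hca

theorem Sg.conj {σ u : ℝ ≃o ℝ} {z : ℝ} (hS : Sg Γ σ z) (hu : u ∈ Γ)
    (hK : ∀ y, σ y = y → σ (u y) = u y)
    (hK' : ∀ y, σ y = y → σ ((u⁻¹ : ℝ ≃o ℝ) y) = (u⁻¹ : ℝ ≃o ℝ) y) :
    u * σ * u⁻¹ = σ ∨ u * σ * u⁻¹ = σ⁻¹ :=
  conj_gen (Γ := Γ) (c := σ) (a := 1) hS.mem hu one_ne_zero (zpow_one σ).symm hS.ne hS.fix
    hS.stab hK hK'

theorem Sg.pigeon (h : Gp Γ) {σ u : ℝ ≃o ℝ} {z : ℝ} (hS : Sg Γ σ z) (hu : u ∈ Γ)
    (hK : ∀ y, σ y = y → σ (u y) = u y) :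
    ∃ q : ℕ, 0 < q ∧ ∃ k b : ℤ, u ^ q = TT ^ k * σ ^ b :=
  Pool.Agent.H52.GS.pigeon h hS.mem hS.ne hu hS.fix (hS.stab z hS.fix) hK

/-- elements commuting with `σ` preserve its fixed points -/
theorem comm_fix {σ u : ℝ ≃o ℝ} (hc : u * σ = σ * u) {y : ℝ} (hy : σ y = y) : σ (u y) = u y :=
  c7_comm_apply hc hy

theorem comm_inv {σ u : ℝ ≃o ℝ} (hc : u * σ = σ * u) : u⁻¹ * σ = σ * u⁻¹ :=
  (Commute.inv_left (show Commute u σ from hc))

/-- elements inverting `σ` preserve its fixed points -/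
theorem inv_fix {σ u : ℝ ≃o ℝ} (hc : u * σ * u⁻¹ = σ⁻¹) {y : ℝ} (hy : σ y = y) :
    σ (u y) = u y := by
  have h1 : (u * σ * u⁻¹) (u y) = u y := by
    rw [RelIso.mul_apply, RelIso.mul_apply, RelIso.inv_apply_self, hy]
  rw [hc] at h1
  have h2 := congrArg σ h1
  rw [RelIso.apply_inv_self] at h2
  exact h2.symm

theorem inv_inv' {σ u : ℝ ≃o ℝ} (hc : u * σ * u⁻¹ = σ⁻¹) : u⁻¹ * σ * u = σ⁻¹ := by
  have h1 : σ = u⁻¹ * σ⁻¹ * u := by rw [← hc]; group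
  calc u⁻¹ * σ * u = (u⁻¹ * σ⁻¹ * u)⁻¹ := by group
    _ = σ⁻¹ := by rw [← h1]

theorem inv_fix' {σ u : ℝ ≃o ℝ} (hc : u * σ * u⁻¹ = σ⁻¹) {y : ℝ} (hy : σ y = y) :
    σ ((u⁻¹ : ℝ ≃o ℝ) y) = (u⁻¹ : ℝ ≃o ℝ) y := by
  refine inv_fix (u := u⁻¹) ?_ hy
  rw [inv_inv]
  exact inv_inv' hc

/-- an element inverting `σ` is torsion -/
theorem Sg.tor (h : Gp Γ) {σ u : ℝ ≃o ℝ} {z : ℝ} (hS : Sg Γ σ z) (hu : u ∈ Γ)
    (hc : u * σ * u⁻¹ = σ⁻¹) : Tor u := by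
  obtain ⟨q, hq, k, b, hub⟩ := hS.pigeon h hu (fun y hy => inv_fix hc hy)
  have hTu : TT ^ k * u = u * TT ^ k := TT_comm h hu k
  have h1 : u * σ ^ b * u⁻¹ = σ ^ (-b) := by
    rw [← conj_zpow, hc, inv_zpow, zpow_neg]
  have h2 : TT ^ k * σ ^ (-b) = TT ^ k * σ ^ b := by
    calc TT ^ k * σ ^ (-b) = TT ^ k * (u * σ ^ b * u⁻¹) := by rw [h1]
      _ = (TT ^ k * u) * σ ^ b * u⁻¹ := by group
      _ = (u * TT ^ k) * σ ^ b * u⁻¹ := by rw [hTu]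
      _ = u * (TT ^ k * σ ^ b) * u⁻¹ := by group
      _ = u * u ^ q * u⁻¹ := by rw [← hub]
      _ = u ^ q := by
        have h3 : u * u ^ q = u ^ q * u := (Commute.refl u).pow_right q
        rw [h3, mul_assoc, mul_inv_cancel, mul_one]
      _ = TT ^ k * σ ^ b := hub
  have h3 := hS.zinj (mul_left_cancel h2)
  have hb : b = 0 := by omega
  rw [hb, zpow_zero, mul_one] at hub
  exact ⟨q, hq, k, hub⟩

/-- the centraliser of `σ` is abelian -/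
theorem Sg.cent (h : Gp Γ) {σ u v : ℝ ≃o ℝ} {z : ℝ} (hS : Sg Γ σ z) (hu : u ∈ Γ) (hv : v ∈ Γ)
    (hcu : u * σ = σ * u) (hcv : v * σ = σ * v) : u * v = v * u := by
  refine cent_comm h hu hv hS.mem ?_ hcu hcv
  intro q hq k hk
  exact hS.ne (Tor.fix ⟨q, hq, k, hk⟩ hS.fix)

/-- an element commuting with a nontrivial power of `σ` commutes with `σ` -/
theorem Sg.comm_of_pow {σ u : ℝ ≃o ℝ} {z : ℝ} (hS : Sg Γ σ z) (hu : u ∈ Γ) {a : ℤ} (ha : a ≠ 0)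
    (hc : u * σ ^ a = σ ^ a * u) : u * σ = σ * u := by
  have hf : ∀ y, σ y = y ↔ (σ ^ a) y = y := fun y => c3_fix ha y
  have hK : ∀ y, σ y = y → σ (u y) = u y := fun y hy =>
    (hf _).2 (comm_fix hc ((hf y).1 hy))
  have hK' : ∀ y, σ y = y → σ ((u⁻¹ : ℝ ≃o ℝ) y) = (u⁻¹ : ℝ ≃o ℝ) y := fun y hy =>
    (hf _).2 (comm_fix (comm_inv hc) ((hf y).1 hy))
  rcases hS.conj hu hK hK' with h1 | h1
  · rwa [mul_inv_eq_iff_eq_mul] at h1
  · exfalso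
    have e1 : (u * σ * u⁻¹) ^ a = u * σ ^ a * u⁻¹ := conj_zpow
    rw [h1, hc, mul_inv_cancel_right, inv_zpow, ← zpow_neg] at e1
    have := hS.zinj e1
    omega

/-- an element of the centraliser of `σ` with a fixed point is a power of `σ` -/
theorem Sg.pow_of_fix (h : Gp Γ) {σ x : ℝ ≃o ℝ} {z : ℝ} (hS : Sg Γ σ z) (hx : x ∈ Γ)
    (hc : x * σ = σ * x) {z1 : ℝ} (hz1 : x z1 = z1) : ∃ j : ℤ, x = σ ^ j := by
  obtain ⟨q, hq, k, b, hxb⟩ := hS.pigeon h hx (fun y hy => comm_fix hc hy)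
  have hpi : 0 < 2 * Real.pi := by positivity
  -- a fixed point of `σ` just below `z1`
  set l : ℤ := ⌊(z1 - z) / (2 * Real.pi)⌋ with hl
  have hz0 : σ (z + l * (2 * Real.pi)) = z + l * (2 * Real.pi) := by
    rw [per_int h hS.mem, hS.fix]
  have h1 : z + l * (2 * Real.pi) ≤ z1 := by
    have := Int.floor_le ((z1 - z) / (2 * Real.pi))
    rw [le_div_iff₀ hpi] at this
    linarith
  have h2 : z1 < z + l * (2 * Real.pi) + 2 * Real.pi := by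
    have := Int.lt_floor_add_one ((z1 - z) / (2 * Real.pi))
    rw [div_lt_iff₀ hpi] at this
    linarith
  have hz0' : σ (z + l * (2 * Real.pi) + 2 * Real.pi) = z + l * (2 * Real.pi) + 2 * Real.pi := by
    rw [h.comm σ hS.mem, hz0]
  have h3 : (x ^ q) z1 = z1 := by
    have := fixed_zpow (q : ℤ) hz1
    rwa [zpow_natCast] at this
  rw [hxb, RelIso.mul_apply, TT_zpow] at h3
  have h4 : z + l * (2 * Real.pi) ≤ (σ ^ b) z1 := by
    have := (σ ^ b).monotone h1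
    rwa [fixed_zpow b hz0] at this
  have h5 : (σ ^ b) z1 < z + l * (2 * Real.pi) + 2 * Real.pi := by
    have := (σ ^ b).strictMono h2
    rwa [fixed_zpow b hz0'] at this
  have hk0 : k = 0 := by
    by_contra hne
    have h6 : (1 : ℝ) ≤ |(k : ℝ)| := by
      have := Int.one_le_abs hne
      exact_mod_cast this
    have h7 : |(k : ℝ) * (2 * Real.pi)| < 2 * Real.pi := by
      rw [abs_lt]
      constructor <;> linarith
    rw [abs_mul, abs_of_pos hpi] at h7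
    nlinarith
  rw [hk0, zpow_zero, one_mul] at hxb
  have h8 : (x ^ (q : ℤ)) z = z := by
    rw [zpow_natCast, hxb]
    exact fixed_zpow b hS.fix
  have h9 : x z = z := zpow_fixed (by exact_mod_cast hq.ne') h8
  exact hS.stab z hS.fix x hx h9

/-- data given by a Heisenberg relation -/
theorem heis2 (h : Gp Γ) {s t c : ℝ ≃o ℝ} (hs : s ∈ Γ) (ht : t ∈ Γ)
    (hcdef : c = s * t * s⁻¹ * t⁻¹) (hc1 : c ≠ 1) (hc : c * s = s * c) :
    ∃ σ z, Sg Γ σ z ∧ (∃ a : ℤ, a ≠ 0 ∧ c = σ ^ a) ∧ t * σ * t⁻¹ = σ⁻¹ := by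
  have hcΓ : c ∈ Γ := by
    rw [hcdef]
    exact Γ.mul_mem (Γ.mul_mem (Γ.mul_mem hs ht) (Γ.inv_mem hs)) (Γ.inv_mem ht)
  have hts : t * s * t⁻¹ = c⁻¹ * s := by
    rw [hcdef]; group
  obtain ⟨z, hz⟩ := heis_fix h hs ht hcΓ hc hts
  obtain ⟨σ, hS, a, ha, hca⟩ := sg_of h hcΓ hc1 hz
  refine ⟨σ, z, hS, ⟨a, ha, hca⟩, ?_⟩
  have hsσ : s * σ = σ * s := hS.comm_of_pow hs ha (by rw [← hca]; exact hc.symm)
  obtain ⟨q, hq, k, b, hsq⟩ := hS.pigeon h hs (fun y hy => comm_fix hsσ hy)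
  have hqz : (q : ℤ) ≠ 0 := by exact_mod_cast hq.ne'
  have haq : a * (q : ℤ) ≠ 0 := mul_ne_zero ha hqz
  have hcomm : Commute c⁻¹ s := by
    have : Commute c s := hc
    exact this.inv_left
  have e1 : t * s ^ q * t⁻¹ = c⁻¹ ^ q * s ^ q := by
    rw [← conj_pow, hts, hcomm.mul_pow]
  have e2 : c⁻¹ ^ q = σ ^ (-(a * (q : ℤ))) := by
    rw [hca, ← zpow_neg, ← zpow_natCast, ← zpow_mul]
    congr 1
    ring
  have hTt : TT ^ k * t = t * TT ^ k := TT_comm h ht k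
  have hTσ : TT ^ k * σ ^ (-(a * (q : ℤ))) = σ ^ (-(a * (q : ℤ))) * TT ^ k :=
    TT_comm h (Γ.zpow_mem hS.mem _) k
  have key : t * σ ^ b * t⁻¹ = σ ^ (b - a * (q : ℤ)) := by
    have h1 : TT ^ k * (t * σ ^ b * t⁻¹) = TT ^ k * σ ^ (b - a * (q : ℤ)) := by
      calc TT ^ k * (t * σ ^ b * t⁻¹) = (TT ^ k * t) * σ ^ b * t⁻¹ := by group
        _ = (t * TT ^ k) * σ ^ b * t⁻¹ := by rw [hTt]
        _ = t * (TT ^ k * σ ^ b) * t⁻¹ := by group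
        _ = t * s ^ q * t⁻¹ := by rw [← hsq]
        _ = c⁻¹ ^ q * s ^ q := e1
        _ = σ ^ (-(a * (q : ℤ))) * (TT ^ k * σ ^ b) := by rw [e2, hsq]
        _ = (σ ^ (-(a * (q : ℤ))) * TT ^ k) * σ ^ b := by group
        _ = (TT ^ k * σ ^ (-(a * (q : ℤ)))) * σ ^ b := by rw [hTσ]
        _ = TT ^ k * (σ ^ (-(a * (q : ℤ))) * σ ^ b) := by group
        _ = TT ^ k * σ ^ (b - a * (q : ℤ)) := by
          rw [← zpow_add]
          congr 2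
          ring
    exact mul_left_cancel h1
  have hb : b ≠ 0 := by
    intro h0
    rw [h0, zpow_zero, mul_one, mul_inv_cancel, zero_sub] at key
    exact hS.ne' (neg_ne_zero.mpr haq) key.symm
  have hb2 : b - a * (q : ℤ) ≠ 0 := by
    intro h0
    rw [h0, zpow_zero] at key
    apply hS.ne' hb
    calc σ ^ b = t⁻¹ * (t * σ ^ b * t⁻¹) * t := by group
      _ = 1 := by rw [key]; group
  have hKt : ∀ y, σ y = y → σ (t y) = t y := by
    intro y hy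
    have h1 : (σ ^ b) y = y := fixed_zpow b hy
    have h2 : (t * σ ^ b * t⁻¹) (t y) = t y := by
      rw [RelIso.mul_apply, RelIso.mul_apply, RelIso.inv_apply_self, h1]
    rw [key] at h2
    exact zpow_fixed hb2 h2
  have hKt' : ∀ y, σ y = y → σ ((t⁻¹ : ℝ ≃o ℝ) y) = (t⁻¹ : ℝ ≃o ℝ) y := by
    intro y hy
    have h1 : (σ ^ (b - a * (q : ℤ))) y = y := fixed_zpow _ hy
    rw [← key, RelIso.mul_apply, RelIso.mul_apply] at h1
    have h2 : (σ ^ b) ((t⁻¹ : ℝ ≃o ℝ) y) = (t⁻¹ : ℝ ≃o ℝ) y := by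
      have h3 := congrArg (fun w => (t⁻¹ : ℝ ≃o ℝ) w) h1
      simp only [RelIso.inv_apply_self] at h3
      exact h3
    exact zpow_fixed hb h2
  rcases hS.conj ht hKt hKt' with hA | hB
  · exfalso
    have h1 : t * σ ^ b * t⁻¹ = σ ^ b := by rw [← conj_zpow, hA]
    rw [h1] at key
    have h2 := hS.zinj key
    apply haq
    omega
  · exact hB

/-- the square of a torsion element inverting `σ` commutes with `h'` if `[t, h']` commutes with a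
power of `σ` -/
theorem sq_comm (h : Gp Γ) {σ t u : ℝ ≃o ℝ} {z : ℝ} (hS : Sg Γ σ z) (ht : t ∈ Γ) (hu : u ∈ Γ)
    (hti : t * σ * t⁻¹ = σ⁻¹)
    (hm : (t * u * t⁻¹ * u⁻¹) * σ = σ * (t * u * t⁻¹ * u⁻¹)) :
    (t * t) * u = u * (t * t) := by
  obtain ⟨m, hmdef⟩ : ∃ m : ℝ ≃o ℝ, m = t * u * t⁻¹ * u⁻¹ := ⟨_, rfl⟩
  rw [← hmdef] at hm
  have hmΓ : m ∈ Γ := by
    rw [hmdef]
    exact Γ.mul_mem (Γ.mul_mem (Γ.mul_mem ht hu) (Γ.inv_mem ht)) (Γ.inv_mem hu)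
  obtain ⟨t', ht'def⟩ : ∃ t' : ℝ ≃o ℝ, t' = u * t * u⁻¹ := ⟨_, rfl⟩
  have ht'Γ : t' ∈ Γ := by
    rw [ht'def]
    exact Γ.mul_mem (Γ.mul_mem hu ht) (Γ.inv_mem hu)
  have ht'm : t' = m⁻¹ * t := by
    rw [ht'def, hmdef]; group
  have ht'i : t' * σ * t'⁻¹ = σ⁻¹ := by
    have e1 : m⁻¹ * σ⁻¹ * m = σ⁻¹ := by
      have : Commute m σ := hm
      have h2 : m⁻¹ * σ⁻¹ = σ⁻¹ * m⁻¹ := (this.inv_inv)
      rw [h2, mul_assoc, inv_mul_cancel, mul_one]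
    calc t' * σ * t'⁻¹ = m⁻¹ * (t * σ * t⁻¹) * m := by rw [ht'm]; group
      _ = σ⁻¹ := by rw [hti, e1]
  have htt : (t * t) * σ = σ * (t * t) := by
    have e1 : t * σ = σ⁻¹ * t := by rwa [mul_inv_eq_iff_eq_mul] at hti
    have e2 : t * σ⁻¹ = σ * t := by
      have e4 : (t * σ * t⁻¹)⁻¹ = σ := by rw [hti, inv_inv]
      calc t * σ⁻¹ = (t * σ * t⁻¹)⁻¹ * t := by group
        _ = σ * t := by rw [e4]
    calc t * t * σ = t * (t * σ) := by group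
      _ = (t * σ⁻¹) * t := by rw [e1]; group
      _ = σ * (t * t) := by rw [e2]; group
  have htt' : (t' * t') * σ = σ * (t' * t') := by
    have e1 : t' * σ = σ⁻¹ * t' := by rwa [mul_inv_eq_iff_eq_mul] at ht'i
    have e3 : t' * σ⁻¹ = σ * t' := by
      have e4 : (t' * σ * t'⁻¹)⁻¹ = σ := by rw [ht'i, inv_inv]
      calc t' * σ⁻¹ = (t' * σ * t'⁻¹)⁻¹ * t' := by group
        _ = σ * t' := by rw [e4]
    calc t' * t' * σ = t' * (t' * σ) := by group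
      _ = (t' * σ⁻¹) * t' := by rw [e1]; group
      _ = σ * (t' * t') := by rw [e3]; group
  have hcomm : Commute (t' * t') (t * t) :=
    hS.cent h (Γ.mul_mem ht'Γ ht'Γ) (Γ.mul_mem ht ht) htt' htt
  obtain ⟨q, hq, k, hk⟩ := hS.tor h ht hti
  have hk' : t' ^ q = TT ^ k := by
    rw [ht'def, conj_pow, hk, ← TT_comm h hu k, mul_inv_cancel_right]
  have e5 : ((t' * t') * (t * t)⁻¹) ^ q = 1 := by
    rw [(hcomm.inv_right).mul_pow, ← pow_two, ← pow_two, inv_pow, ← pow_mul, ← pow_mul, mul_comm 2 q,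
      pow_mul, pow_mul, hk, hk', mul_inv_cancel]
  have e6 : (t' * t') * (t * t)⁻¹ = 1 := by
    refine zpow_eq_one (k := (q : ℤ)) (by exact_mod_cast hq.ne') ?_
    rw [zpow_natCast]
    exact e5
  have e7 : t' * t' = t * t := by
    rwa [mul_inv_eq_one] at e6
  calc (t * t) * u = (t' * t') * u := by rw [e7]
    _ = u * (t * t) := by rw [ht'def]; group

end Pool.Agent.H25.TS
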