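import Mathlib
import Pool.Agent.H25.TS.T1

/-!
# TS-T2 (helper25): a commutator inverting `σ` is impossible under suitable commutation relations
-/

set_option autoImplicit false
open Set Filter Topology MeasureTheory Metric
open Pool.Agent.H52.GS

namespace Pool.Agent.H25.TS

variable {Γ : Subgroup (ℝ ≃o ℝ)}

/-- `u` normalises the group generated by `σ` (one-sided form) -/
def Nrm (σ u : ℝ ≃o ℝ) : Prop := ∀ e : ℤ, ∃ e' : ℤ, u * σ ^ e = σ ^ e' * u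

theorem Nrm.mul {σ u v : ℝ ≃o ℝ} (hu : Nrm σ u) (hv : Nrm σ v) : Nrm σ (u * v) := by
  intro e
  obtain ⟨e1, h1⟩ := hv e
  obtain ⟨e2, h2⟩ := hu e1
  refine ⟨e2, ?_⟩
  rw [mul_assoc, h1, ← mul_assoc, h2, mul_assoc]

theorem Nrm.one {σ : ℝ ≃o ℝ} : Nrm σ 1 := fun e => ⟨e, by rw [one_mul, mul_one]⟩

theorem Nrm.pow {σ u : ℝ ≃o ℝ} (hu : Nrm σ u) (n : ℕ) : Nrm σ (u ^ n) := by
  induction n with
  | zero => rw [pow_zero]; exact Nrm.one
  | succ n ih => rw [pow_succ]; exact ih.mul hu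

theorem Nrm.of_conj {σ u : ℝ ≃o ℝ} (h : u * σ * u⁻¹ = σ ∨ u * σ * u⁻¹ = σ⁻¹) : Nrm σ u := by
  intro e
  have e1 : (u * σ * u⁻¹) ^ e = u * σ ^ e * u⁻¹ := conj_zpow
  rcases h with h | h
  · refine ⟨e, ?_⟩
    rw [h] at e1
    calc u * σ ^ e = (u * σ ^ e * u⁻¹) * u := by group
      _ = σ ^ e * u := by rw [← e1]
  · refine ⟨-e, ?_⟩
    rw [h, inv_zpow, ← zpow_neg] at e1
    calc u * σ ^ e = (u * σ ^ e * u⁻¹) * u := by group
      _ = σ ^ (-e) * u := by rw [← e1]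

/-- an element of `Γ` cannot move two points by different multiples of the period -/
theorem two_trans (h : Gp Γ) {A : ℝ ≃o ℝ} (hA : A ∈ Γ) {z z' : ℝ} {K1 K2 : ℤ}
    (h1 : A z = z + K1 * (2 * Real.pi)) (h2 : A z' = z' + K2 * (2 * Real.pi)) : K1 = K2 := by
  have hpi : 0 < 2 * Real.pi := by positivity
  have hit : ∀ (y : ℝ) (K : ℤ), A y = y + K * (2 * Real.pi) →
      ∀ j : ℕ, (A ^ j) y = y + (j : ℝ) * (K * (2 * Real.pi)) := by
    intro y K hy j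
    induction j with
    | zero => simp
    | succ j ih =>
      have e : (A ^ (j + 1)) y = A ((A ^ j) y) := by
        rw [pow_succ']
        rfl
      have e2 : y + (j : ℝ) * (K * (2 * Real.pi)) = y + ((j * K : ℤ) : ℝ) * (2 * Real.pi) := by
        push_cast
        ring
      rw [e, ih, e2, per_int h hA, hy]
      push_cast
      ring
  obtain ⟨m, hm⟩ := exists_nat_ge (|z - z'| / (2 * Real.pi))
  rw [div_le_iff₀ hpi] at hm
  by_contra hne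
  have h3 : (1 : ℝ) ≤ |((K1 - K2 : ℤ) : ℝ)| := by
    have := Int.one_le_abs (sub_ne_zero.2 hne)
    exact_mod_cast this
  have h4 := equiv_near h (Γ.pow_mem hA (2 * m + 1)) m hm
  rw [hit z K1 h1, hit z' K2 h2] at h4
  have h5 : z + ((2 * m + 1 : ℕ) : ℝ) * (K1 * (2 * Real.pi)) -
      (z' + ((2 * m + 1 : ℕ) : ℝ) * (K2 * (2 * Real.pi))) =
      (z - z') + ((2 * m + 1 : ℕ) : ℝ) * (2 * Real.pi) * ((K1 - K2 : ℤ) : ℝ) := by
    push_cast
    ring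
  rw [h5] at h4
  have h6 : |((2 * m + 1 : ℕ) : ℝ) * (2 * Real.pi) * ((K1 - K2 : ℤ) : ℝ)| ≤
      2 * (m * (2 * Real.pi)) := by
    have := abs_sub_abs_le_abs_sub (((2 * m + 1 : ℕ) : ℝ) * (2 * Real.pi) * ((K1 - K2 : ℤ) : ℝ))
      (-(z - z'))
    rw [abs_neg, sub_neg_eq_add, add_comm _ (z - z')] at this
    linarith
  rw [abs_mul, abs_of_pos (by positivity)] at h6
  push_cast at h6
  have h7 : (2 * (m : ℝ) + 1) * (2 * Real.pi) * 1 ≤
      (2 * (m : ℝ) + 1) * (2 * Real.pi) * |((K1 : ℝ) - (K2 : ℝ))| := by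
    refine mul_le_mul_of_nonneg_left ?_ (by positivity)
    push_cast at h3
    exact h3
  nlinarith

theorem no_comm_tor (h : Gp Γ) {σ t a b m n : ℝ ≃o ℝ} {z : ℝ} (hS : Sg Γ σ z) (ha : a ∈ Γ)
    (hb : b ∈ Γ) (htd : t = a * b * a⁻¹ * b⁻¹) (hti : t * σ * t⁻¹ = σ⁻¹)
    (hmd : m = t * a * t⁻¹ * a⁻¹) (hm : m * σ = σ * m)
    (hnd : n = m * a * m⁻¹ * a⁻¹) (hn : n * σ = σ * n) : False := by
  have ht : t ∈ Γ := by
    rw [htd]
    exact Γ.mul_mem (Γ.mul_mem (Γ.mul_mem ha hb) (Γ.inv_mem ha)) (Γ.inv_mem hb)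
  have hmΓ : m ∈ Γ := by
    rw [hmd]
    exact Γ.mul_mem (Γ.mul_mem (Γ.mul_mem ht ha) (Γ.inv_mem ht)) (Γ.inv_mem ha)
  have htor : Tor t := hS.tor h ht hti
  have ht1 : t ≠ 1 := by
    rintro h1
    rw [h1, one_mul, inv_one, mul_one] at hti
    have h2 : σ ^ (1 : ℤ) = σ ^ (-1 : ℤ) := by rw [zpow_one, zpow_neg_one]; exact hti
    have := hS.zinj h2
    omega
  have hsq : (t * t) * a = a * (t * t) := sq_comm h hS ht ha hti (by rw [← hmd]; exact hm)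
  -- `m ≠ 1`
  have hm1 : m ≠ 1 := by
    intro h1
    rw [h1] at hmd
    have hta : t * a = a * t := by
      calc t * a = (t * a * t⁻¹ * a⁻¹) * (a * t) := by group
        _ = a * t := by rw [← hmd, one_mul]
    have hts : b * a * b⁻¹ = t⁻¹ * a := by rw [htd]; group
    obtain ⟨z', hz'⟩ := heis_fix h ha hb ht hta hts
    exact ht1 (htor.fix hz')
  -- `t` inverts `m`
  have htm : t * m * t⁻¹ = m⁻¹ := by
    calc t * m * t⁻¹ = ((t * t) * a) * t⁻¹ * a⁻¹ * t⁻¹ := by rw [hmd]; group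
      _ = (a * (t * t)) * t⁻¹ * a⁻¹ * t⁻¹ := by rw [hsq]
      _ = m⁻¹ := by rw [hmd]; group
  -- `m` is a power of `σ`
  obtain ⟨r, hr⟩ : ∃ r : ℤ, m = σ ^ r := by
    obtain ⟨q, hq, k, b1, hmb⟩ := hS.pigeon h hmΓ (fun y hy => comm_fix hm hy)
    have hTt : TT ^ k * t = t * TT ^ k := TT_comm h ht k
    have h1 : t * σ ^ b1 * t⁻¹ = σ ^ (-b1) := by
      rw [← conj_zpow, hti, inv_zpow, zpow_neg]
    have h2 : (m ^ q)⁻¹ = TT ^ k * σ ^ (-b1) := by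
      calc (m ^ q)⁻¹ = t * m ^ q * t⁻¹ := by rw [← conj_pow, htm, inv_pow]
        _ = t * (TT ^ k * σ ^ b1) * t⁻¹ := by rw [hmb]
        _ = (t * TT ^ k) * σ ^ b1 * t⁻¹ := by group
        _ = (TT ^ k * t) * σ ^ b1 * t⁻¹ := by rw [hTt]
        _ = TT ^ k * (t * σ ^ b1 * t⁻¹) := by group
        _ = TT ^ k * σ ^ (-b1) := by rw [h1]
    rw [hmb] at h2
    have h3 : TT ^ (2 * k) = 1 := by
      have hTσ : TT ^ k * σ ^ b1 = σ ^ b1 * TT ^ k := TT_comm h (Γ.zpow_mem hS.mem _) k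
      calc TT ^ (2 * k) = TT ^ k * (TT ^ k * σ ^ (-b1)) * σ ^ b1 := by
            rw [two_mul, zpow_add]; group
        _ = TT ^ k * (TT ^ k * σ ^ b1)⁻¹ * σ ^ b1 := by rw [h2]
        _ = TT ^ k * (σ ^ b1 * TT ^ k)⁻¹ * σ ^ b1 := by rw [hTσ]
        _ = 1 := by group
    have h4 : (TT ^ (2 * k)) z = z := by rw [h3]; rfl
    have h5 := TT_zpow_inj h4
    have hk : k = 0 := by omega
    rw [hk, zpow_zero, one_mul] at hmb
    have h6 : (m ^ (q : ℤ)) z = z := by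
      rw [zpow_natCast, hmb]
      exact fixed_zpow b1 hS.fix
    exact hS.stab z hS.fix m hmΓ (zpow_fixed (by exact_mod_cast hq.ne') h6)
  have hr0 : r ≠ 0 := by
    rintro rfl
    rw [zpow_zero] at hr
    exact hm1 hr
  -- the conjugate of `m` by `a`
  obtain ⟨x, hxd⟩ : ∃ x : ℝ ≃o ℝ, x = a * m * a⁻¹ := ⟨_, rfl⟩
  have hxΓ : x ∈ Γ := by
    rw [hxd]
    exact Γ.mul_mem (Γ.mul_mem ha hmΓ) (Γ.inv_mem ha)
  have hxσ : x * σ = σ * x := by
    have e1 : x = n⁻¹ * m := by rw [hxd, hnd]; group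
    have c1 : Commute n σ := hn
    have c2 : Commute m σ := hm
    have c3 : Commute (n⁻¹ * m) σ := (c1.inv_left).mul_left c2
    rw [e1]
    exact c3
  have hmz : ∀ y, σ y = y ↔ m y = y := fun y => by rw [hr]; exact c3_fix hr0 y
  have hxz : x (a z) = a z := by
    rw [hxd, RelIso.mul_apply, RelIso.mul_apply, RelIso.inv_apply_self, (hmz z).1 hS.fix]
  obtain ⟨r', hr'⟩ := hS.pow_of_fix h hxΓ hxσ hxz
  have hx1 : x ≠ 1 := by
    intro h1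
    apply hm1
    rw [h1] at hxd
    calc m = a⁻¹ * (a * m * a⁻¹) * a := by group
      _ = 1 := by rw [← hxd]; group
  have hr'0 : r' ≠ 0 := by
    rintro rfl
    rw [zpow_zero] at hr'
    exact hx1 hr'
  have hxz' : ∀ y, σ y = y ↔ x y = y := fun y => by rw [hr']; exact c3_fix hr'0 y
  have haK : ∀ y, σ y = y → σ (a y) = a y := by
    intro y hy
    rw [hxz', hxd, RelIso.mul_apply, RelIso.mul_apply, RelIso.inv_apply_self, (hmz y).1 hy]
  have haK' : ∀ y, σ y = y → σ ((a⁻¹ : ℝ ≃o ℝ) y) = (a⁻¹ : ℝ ≃o ℝ) y := by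
    intro y hy
    have h1 := (hxz' y).1 hy
    rw [hxd, RelIso.mul_apply, RelIso.mul_apply] at h1
    rw [hmz]
    have h2 := congrArg (fun w => (a⁻¹ : ℝ ≃o ℝ) w) h1
    simp only [RelIso.inv_apply_self] at h2
    exact h2
  have hNa : Nrm σ a := Nrm.of_conj (hS.conj ha haK haK')
  have hti' : t⁻¹ * σ * (t⁻¹)⁻¹ = σ⁻¹ := by rw [inv_inv]; exact inv_inv' hti
  have hNt : Nrm σ t⁻¹ := Nrm.of_conj (Or.inr hti')
  -- `a t⁻¹ = σ^e t⁻¹ a`
  have hat : ∃ e : ℤ, a * t⁻¹ = σ ^ e * t⁻¹ * a := by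
    obtain ⟨e, he⟩ := hNt r
    refine ⟨e, ?_⟩
    rw [← he, ← hr, hmd]; group
  have hant : ∀ n : ℕ, ∃ e : ℤ, a ^ n * t⁻¹ = σ ^ e * t⁻¹ * a ^ n := by
    intro n
    induction n with
    | zero => exact ⟨0, by simp⟩
    | succ n ih =>
      obtain ⟨e, he⟩ := ih
      obtain ⟨e1, he1⟩ := hNa e
      obtain ⟨e2, he2⟩ := hat
      refine ⟨e1 + e2, ?_⟩
      calc a ^ (n + 1) * t⁻¹ = a * (a ^ n * t⁻¹) := by rw [pow_succ', mul_assoc]
        _ = (a * σ ^ e) * t⁻¹ * a ^ n := by rw [he]; group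
        _ = σ ^ e1 * (a * t⁻¹) * a ^ n := by rw [he1]; group
        _ = σ ^ (e1 + e2) * t⁻¹ * a ^ (n + 1) := by
          rw [he2, zpow_add, pow_succ']; group
  have hpw : ∀ n : ℕ, ∃ e : ℤ, (t⁻¹ * a) ^ n = σ ^ e * (t⁻¹) ^ n * a ^ n := by
    intro n
    induction n with
    | zero => exact ⟨0, by simp⟩
    | succ n ih =>
      obtain ⟨e, he⟩ := ih
      obtain ⟨e1, he1⟩ := hant n
      obtain ⟨e2, he2⟩ := (hNt.pow n) e1
      refine ⟨e + e2, ?_⟩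
      calc (t⁻¹ * a) ^ (n + 1) = (t⁻¹ * a) ^ n * (t⁻¹ * a) := pow_succ _ _
        _ = σ ^ e * (t⁻¹) ^ n * (a ^ n * t⁻¹) * a := by rw [he]; group
        _ = σ ^ e * ((t⁻¹) ^ n * σ ^ e1) * t⁻¹ * a ^ n * a := by rw [he1]; group
        _ = σ ^ (e + e2) * (t⁻¹) ^ (n + 1) * a ^ (n + 1) := by
          rw [he2, zpow_add, pow_succ (t⁻¹), pow_succ a]; group
  obtain ⟨q, hq, k', htq⟩ := htor
  obtain ⟨q3, hq3, k3, b3, haq⟩ := hS.pigeon h ha haK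
  obtain ⟨e, he⟩ := hpw (q * q3)
  have hTσ : ∀ i j : ℤ, TT ^ i * σ ^ j = σ ^ j * TT ^ i := fun i j =>
    TT_comm h (Γ.zpow_mem hS.mem _) i
  have e1 : (t⁻¹) ^ (q * q3) = TT ^ (-(k' * q3)) := by
    rw [inv_pow, pow_mul, htq, ← zpow_natCast, ← zpow_mul, ← zpow_neg]
  have e2 : a ^ (q * q3) = TT ^ (k3 * q) * σ ^ (b3 * q) := by
    rw [mul_comm q q3, pow_mul, haq]
    have c1 : Commute (TT ^ k3) (σ ^ b3) := hTσ k3 b3
    rw [c1.mul_pow, ← zpow_natCast, ← zpow_natCast, ← zpow_mul, ← zpow_mul]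
  have hAΓ : (t⁻¹ * a) ^ (q * q3) ∈ Γ := Γ.pow_mem (Γ.mul_mem (Γ.inv_mem ht) ha) _
  have hAz : ((t⁻¹ * a) ^ (q * q3)) z = z + ((k3 * q - k' * q3 : ℤ) : ℝ) * (2 * Real.pi) := by
    rw [he, e1, e2]
    simp only [RelIso.mul_apply]
    rw [fixed_zpow _ hS.fix, TT_zpow, TT_zpow]
    have e3 : z + ((k3 * q : ℤ) : ℝ) * (2 * Real.pi) + ((-(k' * q3) : ℤ) : ℝ) * (2 * Real.pi) =
        z + ((k3 * q - k' * q3 : ℤ) : ℝ) * (2 * Real.pi) := by
      push_cast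
      ring
    rw [e3, per_int h (Γ.zpow_mem hS.mem _), fixed_zpow _ hS.fix]
  have hAb : ((t⁻¹ * a) ^ (q * q3)) (b z) = b z + ((k3 * q : ℤ) : ℝ) * (2 * Real.pi) := by
    have e4 : t⁻¹ * a = b * a * b⁻¹ := by rw [htd]; group
    rw [e4, conj_pow, e2]
    simp only [RelIso.mul_apply]
    rw [RelIso.inv_apply_self, fixed_zpow _ hS.fix, TT_zpow, per_int h hb]
  have h7 := two_trans h hAΓ hAz hAb
  have h8 : k' * (q3 : ℤ) = 0 := by omega
  have hq3' : (q3 : ℤ) ≠ 0 := by exact_mod_cast hq3.ne'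
  have h9 : k' = 0 := by
    rcases mul_eq_zero.1 h8 with h | h
    · exact h
    · exact absurd h hq3'
  rw [h9, zpow_zero] at htq
  refine ht1 (zpow_eq_one (k := (q : ℤ)) (by exact_mod_cast hq.ne') ?_)
  rw [zpow_natCast]
  exact htq

end Pool.Agent.H25.TS
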