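import Mathlib
import Pool.Agent.H25.TS.T2
import Pool.Agent.H52.GS.M1

/-!
# TS-T3 (helper25): the Margulis lemma without torsion hypothesis

If `f`, `g` are near the identity at `(x,R)` then `f² g² = g² f²`; if all elements of `Γ` which are
near the identity at `(x,R/2)` are torsion then `f g = g f`.
Iterated commutators `S (j+1) = {[s,t] | s ∈ S j, t ∈ S j ∪ S (j-1) ∪ S (j-2)}`.
-/

set_option autoImplicit false
open Set Filter Topology MeasureTheory Metric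
open Pool.Agent.H52.GS

namespace Pool.Agent.H25.TS

variable {Γ : Subgroup (ℝ ≃o ℝ)}

/-- the triple `(S k, S (k-1), S (k-2))` -/
def WS (f g : ℝ ≃o ℝ) : ℕ → Set (ℝ ≃o ℝ) × Set (ℝ ≃o ℝ) × Set (ℝ ≃o ℝ)
  | 0 => ({f, g}, ∅, ∅)
  | k + 1 => ({c | ∃ s ∈ (WS f g k).1, ∃ t ∈ (WS f g k).1 ∪ (WS f g k).2.1 ∪ (WS f g k).2.2,
      c = s * t * s⁻¹ * t⁻¹}, (WS f g k).1, (WS f g k).2.1)

theorem WS_ind {f g : ℝ ≃o ℝ} (hf : f ∈ Γ) (hg : g ∈ Γ)
    {x R η : ℝ} (hR : 0 < R) (hη : 0 < η) (hη' : η ≤ 1 / 2 ^ 24)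
    (hNf : NI f x R (η * R)) (hNg : NI g x R (η * R)) (k : ℕ) :
    (∀ s ∈ (WS f g k).1, s ∈ Γ ∧ NI s x (R / 2 + R / 2 ^ (k + 1)) (η * R / 64 ^ k)) ∧
    (∀ t ∈ (WS f g k).2.1, t ∈ Γ ∧
      NI t x (R / 2 + R / 2 ^ (k + 1)) (64 * (η * R / 64 ^ k))) ∧
    (∀ t ∈ (WS f g k).2.2, t ∈ Γ ∧
      NI t x (R / 2 + R / 2 ^ (k + 1)) (64 ^ 2 * (η * R / 64 ^ k))) := by
  induction k with
  | zero =>
    refine ⟨?_, ?_, ?_⟩
    · intro s hs
      have hs' : s = f ∨ s = g := by simpa [WS] using hs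
      have e : |x - x| + (R / 2 + R / 2 ^ (0 + 1)) ≤ R := by
        rw [sub_self, abs_zero]
        norm_num
      have e2 : η * R ≤ η * R / 64 ^ 0 := by norm_num
      rcases hs' with rfl | rfl
      · exact ⟨hf, hNf.mono e e2⟩
      · exact ⟨hg, hNg.mono e e2⟩
    · intro t ht
      simp [WS] at ht
    · intro t ht
      simp [WS] at ht
  | succ k ih =>
    obtain ⟨ih1, ih2, ih3⟩ := ih
    have h2 : (0 : ℝ) < 2 ^ (k + 1) := by positivity
    have h64 : (0 : ℝ) < 64 ^ k := by positivity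
    have hηR : 0 < η * R := by positivity
    have hak : 0 < η * R / 64 ^ k := by positivity
    have e2 : (2 : ℝ) ^ (k + 1 + 1) = 2 * 2 ^ (k + 1) := by rw [pow_succ]; ring
    have hrr : R / 2 ^ (k + 1 + 1) = R / 2 ^ (k + 1) / 2 := by
      rw [e2]
      field_simp
    have hrp : 0 < R / 2 ^ (k + 1) := by positivity
    have hx0 : |x - x| + (R / 2 + R / 2 ^ (k + 1)) ≤ R / 2 + R / 2 ^ (k + 1) := by
      rw [sub_self, abs_zero, zero_add]
    have hxx : |x - x| + (R / 2 + R / 2 ^ (k + 1 + 1)) ≤ R / 2 + R / 2 ^ (k + 1) := by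
      rw [sub_self, abs_zero, zero_add, hrr]
      linarith
    have h3 : R / 64 ^ k ≤ 2 * (R / 2 ^ (k + 1)) := by
      have h264 : (2 : ℝ) ^ (k + 1) ≤ 2 * 64 ^ k := by
        rw [pow_succ]
        have : (2 : ℝ) ^ k ≤ 64 ^ k := pow_le_pow_left₀ (by norm_num) (by norm_num) k
        linarith
      rw [div_le_iff₀ h64]
      have : 2 * (R / 2 ^ (k + 1)) * 64 ^ k = R * (2 * 64 ^ k / 2 ^ (k + 1)) := by
        field_simp
      rw [this]
      have h4 : 1 ≤ 2 * (64 : ℝ) ^ k / 2 ^ (k + 1) := (one_le_div h2).2 h264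
      nlinarith
    refine ⟨?_, ?_, ?_⟩
    · rintro c ⟨s, hs, t, ht, rfl⟩
      obtain ⟨hsΓ, hsN⟩ := ih1 s hs
      have htN : t ∈ Γ ∧ NI t x (R / 2 + R / 2 ^ (k + 1)) (64 ^ 2 * (η * R / 64 ^ k)) := by
        rcases ht with (ht | ht) | ht
        · exact ⟨(ih1 t ht).1, (ih1 t ht).2.mono hx0 (by linarith)⟩
        · exact ⟨(ih2 t ht).1, (ih2 t ht).2.mono hx0 (by linarith)⟩
        · exact ih3 t ht
      obtain ⟨htΓ, htN⟩ := htN
      refine ⟨?_, ?_⟩
      · exact Γ.mul_mem (Γ.mul_mem (Γ.mul_mem hsΓ htΓ) (Γ.inv_mem hsΓ)) (Γ.inv_mem htΓ)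
      · have hρ : 0 < R / 2 ^ (k + 1) / 2 := by positivity
        have key : 64 ^ 2 * (η * R / 64 ^ k) ≤ R / 2 ^ (k + 1) / 2 / 8 := by
          have h1 : 64 ^ 2 * (η * R / 64 ^ k) ≤ 64 ^ 2 * (1 / 2 ^ 24 * R / 64 ^ k) := by gcongr
          have h5 : 64 ^ 2 * (1 / 2 ^ 24 * R / 64 ^ k) = 64 ^ 2 / 2 ^ 24 * (R / 64 ^ k) := by ring
          rw [h5] at h1
          nlinarith
        have key1 : η * R / 64 ^ k ≤ R / 2 ^ (k + 1) / 2 / 8 := by linarith
        have hc := NI.comm hρ (by linarith) (by positivity) (by positivity) hsN htN key1 key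
        refine hc.mono ?_ ?_
        · rw [sub_self, abs_zero, zero_add, hrr]
          linarith
        · rw [div_le_iff₀ hρ]
          have h6 : 4 * (η * R / 64 ^ k) * (64 ^ 2 * (η * R / 64 ^ k)) =
              η * R / 64 ^ (k + 1) * (η * R * 64 ^ 3 * 4 / 64 ^ k) := by
            rw [pow_succ]
            field_simp
            ring
          rw [h6]
          refine mul_le_mul_of_nonneg_left ?_ (by positivity)
          have h7 : η * R * 64 ^ 3 * 4 / 64 ^ k ≤ 1 / 2 ^ 24 * R * 64 ^ 3 * 4 / 64 ^ k := by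
            gcongr
          have h8 : 1 / 2 ^ 24 * R * 64 ^ 3 * 4 / 64 ^ k = 64 ^ 3 * 4 / 2 ^ 24 * (R / 64 ^ k) := by
            ring
          rw [h8] at h7
          nlinarith
    · intro t ht
      obtain ⟨htΓ, htN⟩ := ih1 t ht
      refine ⟨htΓ, htN.mono hxx ?_⟩
      have : 64 * (η * R / 64 ^ (k + 1)) = η * R / 64 ^ k := by
        rw [pow_succ]
        field_simp
      rw [this]
    · intro t ht
      obtain ⟨htΓ, htN⟩ := ih2 t ht
      refine ⟨htΓ, htN.mono hxx ?_⟩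
      have : 64 ^ 2 * (η * R / 64 ^ (k + 1)) = 64 * (η * R / 64 ^ k) := by
        rw [pow_succ]
        field_simp
        ring
      rw [this]

theorem comm_of_eq_one {a b : ℝ ≃o ℝ} (h : a * b * a⁻¹ * b⁻¹ = 1) : a * b = b * a := by
  calc a * b = (a * b * a⁻¹ * b⁻¹) * (b * a) := by group
    _ = b * a := by rw [h, one_mul]

/-- **Margulis lemma**, general form -/
theorem margulis2 (h : Gp Γ) {x R η : ℝ} (hR : 0 < R) (hη : 0 < η) (hη' : η ≤ 1 / 2 ^ 24)
    {f g : ℝ ≃o ℝ} (hf : f ∈ Γ) (hg : g ∈ Γ) (hNf : NI f x R (η * R)) (hNg : NI g x R (η * R)) :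
    (f * f) * (g * g) = (g * g) * (f * f) ∧
    ((∀ u ∈ Γ, NI u x (R / 2) (η * R) → Tor u) → f * g = g * f) := by
  have hind := WS_ind hf hg hR hη hη' hNf hNg
  have hhalf : ∀ k, ∀ s ∈ (WS f g k).1, NI s x (R / 2) (η * R / 64 ^ k) := by
    intro k s hs
    refine ((hind k).1 s hs).2.mono ?_ le_rfl
    rw [sub_self, abs_zero, zero_add]
    have : 0 < R / 2 ^ (k + 1) := by positivity
    linarith
  obtain ⟨ε, hε, hld⟩ := h.ld x (R / 2) (by linarith)
  have hex : ∃ k, ∀ s ∈ (WS f g k).1, s = 1 := by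
    have htend : Tendsto (fun k : ℕ => η * R * (1 / 64 : ℝ) ^ k) atTop (𝓝 (η * R * 0)) :=
      (tendsto_pow_atTop_nhds_zero_of_lt_one (by norm_num) (by norm_num)).const_mul _
    rw [mul_zero] at htend
    obtain ⟨k, hk⟩ := (htend.eventually (eventually_lt_nhds hε)).exists
    refine ⟨k, fun s hs => hld s ((hind k).1 s hs).1 ((hhalf k s hs).mono ?_ ?_)⟩
    · rw [sub_self, abs_zero, zero_add]
    · have : η * R / 64 ^ k = η * R * (1 / 64 : ℝ) ^ k := by
        rw [one_div, inv_pow]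
        rfl
      rw [this]
      exact hk.le
  classical
  have hfind := Nat.find_spec hex
  have hmin := fun m => Nat.find_min hex (m := m)
  generalize Nat.find hex = k at hfind hmin
  have hcomm2 : f * g = g * f → (f * f) * (g * g) = (g * g) * (f * f) := by
    intro hc
    have c1 : Commute f g := hc
    exact (c1.mul_left c1).mul_right (c1.mul_left c1)
  rcases k with _ | _ | l
  · have hf1 : f = 1 := hfind f (by simp [WS])
    have hc : f * g = g * f := by rw [hf1, one_mul, mul_one]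
    exact ⟨hcomm2 hc, fun _ => hc⟩
  · have : f * g * f⁻¹ * g⁻¹ = 1 := hfind _ ⟨f, by simp [WS], g, by simp [WS], rfl⟩
    have hc := comm_of_eq_one this
    exact ⟨hcomm2 hc, fun _ => hc⟩
  · have hl := hmin (l + 1) (by omega)
    push Not at hl
    obtain ⟨c, hc, hc1⟩ := hl
    have hc' := hc
    obtain ⟨s, hs, t, ht, hcst⟩ := hc'
    have hcΓ : c ∈ Γ := ((hind (l + 1)).1 c hc).1
    -- `c` commutes with the three sets
    have hcc : ∀ u ∈ (WS f g (l + 1)).1 ∪ (WS f g (l + 1)).2.1 ∪ (WS f g (l + 1)).2.2,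
        c * u = u * c := fun u hu => comm_of_eq_one (hfind _ ⟨c, hc, u, hu, rfl⟩)
    have hcs : c * s = s * c := hcc s (Or.inl (Or.inr hs))
    have hsΓ : s ∈ Γ := ((hind l).1 s hs).1
    have htΓ : t ∈ Γ := by
      rcases ht with (ht | ht) | ht
      · exact ((hind l).1 t ht).1
      · exact ((hind l).2.1 t ht).1
      · exact ((hind l).2.2 t ht).1
    obtain ⟨σ, z, hS, ⟨a0, ha0, hca⟩, hti⟩ := heis2 h hsΓ htΓ hcst hc1 hcs
    refine ⟨?_, ?_⟩
    swap
    · intro htor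
      exfalso
      have hct : Tor c := htor c hcΓ ((hhalf (l + 1) c hc).mono (by
        rw [sub_self, abs_zero, zero_add]) (div_le_self (by positivity)
          (one_le_pow₀ (by norm_num))))
      refine hc1 (hct.fix (z := z) ?_)
      rw [hca]
      exact fixed_zpow a0 hS.fix
    -- `t` does not commute with `c`
    have htc : c * t ≠ t * c := by
      intro hcom
      have h1 : t * σ ^ a0 * t⁻¹ = σ ^ (-a0) := by
        rw [← conj_zpow, hti, inv_zpow, zpow_neg]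
      rw [← hca, ← hcom, mul_inv_cancel_right, hca] at h1
      have := hS.zinj h1
      omega
    have ht3 : t ∈ (WS f g l).2.2 := by
      rcases ht with (ht | ht) | ht
      · exact absurd (hcc t (Or.inl (Or.inr ht))) htc
      · exact absurd (hcc t (Or.inr ht)) htc
      · exact ht
    -- `l ≥ 2`
    rcases l with _ | _ | l
    · simp [WS] at ht3
    · simp [WS] at ht3
    have ht4 : t ∈ (WS f g l).1 := ht3
    -- elements commuting with `c` commute with `σ`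
    have hcσ : ∀ u ∈ Γ, c * u = u * c → u * σ = σ * u := fun u hu hcu =>
      hS.comm_of_pow hu ha0 (by rw [← hca]; exact hcu.symm)
    have hmm : ∀ u ∈ (WS f g l).1 ∪ (WS f g l).2.1 ∪ (WS f g l).2.2, u ∈ Γ →
        t * u * t⁻¹ * u⁻¹ ∈ (WS f g (l + 1)).1 ∧
        (t * u * t⁻¹ * u⁻¹) * σ = σ * (t * u * t⁻¹ * u⁻¹) := by
      intro u hu huΓ
      have h1 : t * u * t⁻¹ * u⁻¹ ∈ (WS f g (l + 1)).1 := ⟨t, ht4, u, hu, rfl⟩
      have h2 : t * u * t⁻¹ * u⁻¹ ∈ (WS f g (l + 2 + 1)).2.2 := h1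
      refine ⟨h1, hcσ _ ?_ (hcc _ (Or.inr h2))⟩
      exact Γ.mul_mem (Γ.mul_mem (Γ.mul_mem htΓ huΓ) (Γ.inv_mem htΓ)) (Γ.inv_mem huΓ)
    rcases l with _ | l
    · -- `t ∈ {f, g}`
      have ht5 : t = f ∨ t = g := by simpa [WS] using ht4
      rcases ht5 with rfl | rfl
      · have h1 := (hmm g (Or.inl (Or.inl (by simp [WS]))) hg).2
        have h2 : Commute (t * t) g := sq_comm h hS htΓ hg hti h1
        exact h2.mul_right h2
      · have h1 := (hmm f (Or.inl (Or.inl (by simp [WS]))) hf).2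
        have h2 : Commute (t * t) f := sq_comm h hS htΓ hf hti h1
        exact (h2.mul_right h2).symm
    · -- impossible
      exfalso
      obtain ⟨a, ha, b, hb, htab⟩ := ht4
      have haΓ : a ∈ Γ := ((hind l).1 a ha).1
      have hbΓ : b ∈ Γ := by
        rcases hb with (hb | hb) | hb
        · exact ((hind l).1 b hb).1
        · exact ((hind l).2.1 b hb).1
        · exact ((hind l).2.2 b hb).1
      have ha2 : a ∈ (WS f g (l + 1)).2.1 := ha
      obtain ⟨hm1, hm2⟩ := hmm a (Or.inl (Or.inr ha2)) haΓ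
      obtain ⟨m, hmd⟩ : ∃ m, m = t * a * t⁻¹ * a⁻¹ := ⟨_, rfl⟩
      rw [← hmd] at hm1 hm2
      have hmΓ : m ∈ Γ := ((hind _).1 m hm1).1
      have ha3 : a ∈ (WS f g (l + 1 + 1)).2.2 := ha
      have hn1 : m * a * m⁻¹ * a⁻¹ ∈ (WS f g (l + 1 + 1 + 1)).1 :=
        ⟨m, hm1, a, Or.inr ha3, rfl⟩
      have hn2 : m * a * m⁻¹ * a⁻¹ ∈ (WS f g (l + 1 + 2 + 1)).2.1 := hn1
      have hn3 : (m * a * m⁻¹ * a⁻¹) * σ = σ * (m * a * m⁻¹ * a⁻¹) := by
        refine hcσ _ ?_ (hcc _ (Or.inl (Or.inr hn2)))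
        exact Γ.mul_mem (Γ.mul_mem (Γ.mul_mem hmΓ haΓ) (Γ.inv_mem hmΓ)) (Γ.inv_mem haΓ)
      exact no_comm_tor h hS haΓ hbΓ htab hti hmd hm2 rfl hn3

end Pool.Agent.H25.TS
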