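import Mathlib
import Pool.Agent.H25.TS.T3
import Pool.Agent.H52.GS.M2

/-!
# U1: at a bad point small elements have no fixed point near it (helper52's step 1)

`a` is not fixed by any element `≠ 1`, and for all `ρ ≤ ρ0` there is `f ≠ 1` with
`NI f a ρ (η/1000 ρ)`.  Then such an `f` has no fixed point in `[a - ρ/4, a + ρ/4]`.
Otherwise let `z` be the nearest fixed point, `σ` the generator of its stabiliser.  By the
Margulis lemma the square of any other small element `f'` (at the scale `R = 4|fa-a|/η`) commutes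
with `f²`, hence with `σ`, so it fixes `z`; so `f'` is a power of `σ` with
`|f'a - a| ≤ |fa - a|/2`.  Iterating we contradict `|σ^k a - a| ≥ min |σa-a| |σ⁻¹a-a|`.
-/

set_option autoImplicit false
open Set Filter Topology MeasureTheory Metric

namespace Pool.Agent.H25.TS

open Pool.Agent.H52.GS

variable {Γ : Subgroup (ℝ ≃o ℝ)}

/-- displacement of the powers of an element -/
theorem pow_disp {σ : ℝ ≃o ℝ} {a : ℝ} (hσ : σ a ≠ a) {j : ℤ} (hj : j ≠ 0) :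
    min |σ a - a| |(σ⁻¹ : ℝ ≃o ℝ) a - a| ≤ |(σ ^ j) a - a| := by
  have e1 : (σ ^ (1 : ℤ)) a = σ a := by rw [zpow_one]
  have e0 : (σ ^ (0 : ℤ)) a = a := by rw [zpow_zero]; rfl
  have em : (σ ^ (-1 : ℤ)) a = (σ⁻¹ : ℝ ≃o ℝ) a := by rw [zpow_neg_one]
  rcases lt_or_gt_of_ne hσ with h | h
  · have hm := zpow_gt h
    rcases lt_or_gt_of_ne hj with h1 | h1
    · have h2 : j ≤ -1 := by omega
      have h3 : (σ ^ (-1 : ℤ)) a ≤ (σ ^ j) a := hm.antitone h2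
      have h4 : (σ ^ (0 : ℤ)) a < (σ ^ (-1 : ℤ)) a := hm (by norm_num)
      rw [em] at h3 h4
      rw [e0] at h4
      refine (min_le_right _ _).trans ?_
      rw [abs_of_pos (by linarith), abs_of_pos (by linarith)]
      linarith
    · have h2 : 1 ≤ j := by omega
      have h3 : (σ ^ j) a ≤ (σ ^ (1 : ℤ)) a := hm.antitone h2
      rw [e1] at h3
      refine (min_le_left _ _).trans ?_
      rw [abs_of_neg (by linarith), abs_of_neg (by linarith)]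
      linarith
  · have hm := zpow_lt h
    rcases lt_or_gt_of_ne hj with h1 | h1
    · have h2 : j ≤ -1 := by omega
      have h3 : (σ ^ j) a ≤ (σ ^ (-1 : ℤ)) a := hm.monotone h2
      have h4 : (σ ^ (-1 : ℤ)) a < (σ ^ (0 : ℤ)) a := hm (by norm_num)
      rw [em] at h3 h4
      rw [e0] at h4
      refine (min_le_right _ _).trans ?_
      rw [abs_of_neg (by linarith), abs_of_neg (by linarith)]
      linarith
    · have h2 : 1 ≤ j := by omega
      have h3 : (σ ^ (1 : ℤ)) a ≤ (σ ^ j) a := hm.monotone h2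
      rw [e1] at h3
      refine (min_le_left _ _).trans ?_
      rw [abs_of_pos (by linarith), abs_of_pos (by linarith)]
      linarith

/-- an element which is very small at scale `ρ` is small at all scales above its displacement -/
theorem ni_restrict {f : ℝ ≃o ℝ} {a ρ η R : ℝ} (hρ : 0 < ρ) (hη : 0 < η) (hη' : η ≤ 1 / 2 ^ 24)
    (hN : NI f a ρ (η / 1000 * ρ)) (hR0 : 0 < R) (hR : R ≤ ρ / 2)
    (h4 : 4 * |f a - a| ≤ η * R) : NI f a R (η * R) := by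
  obtain ⟨F, F', hF, hF', hb⟩ := hN
  have ha0 : (a : ℂ) ∈ ball (a : ℂ) (ρ - ρ / 2) := mem_ball_self (by linarith)
  have hlip : ∀ z ∈ ball (a : ℂ) R, ‖(F z - z) - (F a - a)‖ ≤ η / 500 * ‖z - a‖ := fun z hz => by
    have := M1_lip hρ hF.1 (fun z hz => (hb z hz).1) ha0
      (show z ∈ ball (a : ℂ) (ρ - ρ / 2) from ball_subset_ball (by linarith) hz)
    rwa [show η / 1000 * ρ / (ρ / 2) = η / 500 by field_simp; ring] at this
  have hlip' : ∀ z ∈ ball (a : ℂ) R, ‖(F' z - z) - (F' a - a)‖ ≤ η / 500 * ‖z - a‖ :=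
    fun z hz => by
    have := M1_lip hρ hF'.1 (fun z hz => (hb z hz).2) ha0
      (show z ∈ ball (a : ℂ) (ρ - ρ / 2) from ball_subset_ball (by linarith) hz)
    rwa [show η / 1000 * ρ / (ρ / 2) = η / 500 by field_simp; ring] at this
  have hFa : F (a : ℂ) = ((f a : ℝ) : ℂ) := hF.2 a (by simpa using hρ)
  have hFa' : F' (a : ℂ) = (((f⁻¹ : ℝ ≃o ℝ) a : ℝ) : ℂ) := hF'.2 a (by simpa using hρ)
  have hη2 : η ≤ 1 / 16777216 := by norm_num at hη' ⊢; exact hη'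
  -- displacement of the inverse
  have hinv0 : |(f⁻¹ : ℝ ≃o ℝ) a - a| ≤ η / 1000 * ρ := by
    have := (hb a (mem_ball_self hρ)).2
    rw [hFa', ← Complex.ofReal_sub, Complex.norm_real, Real.norm_eq_abs] at this
    exact this
  have hinv : |(f⁻¹ : ℝ ≃o ℝ) a - a| ≤ 2 * |f a - a| := by
    have hm : (((f⁻¹ : ℝ ≃o ℝ) a : ℝ) : ℂ) ∈ ball (a : ℂ) (ρ - ρ / 2) :=
      M1_mem (by nlinarith)
    have h1 := M1_lip hρ hF.1 (fun z hz => (hb z hz).1) ha0 hm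
    rw [show η / 1000 * ρ / (ρ / 2) = η / 500 by field_simp; ring] at h1
    rw [hF.2 _ (by nlinarith : |(f⁻¹ : ℝ ≃o ℝ) a - a| < ρ), hFa,
      show f ((f⁻¹ : ℝ ≃o ℝ) a) = a from f.apply_symm_apply a,
      ← Complex.ofReal_sub, ← Complex.ofReal_sub, ← Complex.ofReal_sub, ← Complex.ofReal_sub,
      Complex.norm_real, Complex.norm_real, Real.norm_eq_abs, Real.norm_eq_abs] at h1
    have h2 : |a - (f⁻¹ : ℝ ≃o ℝ) a| ≤
        |a - (f⁻¹ : ℝ ≃o ℝ) a - (f a - a)| + |f a - a| := by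
      have := abs_add_le (a - (f⁻¹ : ℝ ≃o ℝ) a - (f a - a)) (f a - a)
      rwa [sub_add_cancel] at this
    rw [abs_sub_comm a] at h2
    have h3 := abs_nonneg ((f⁻¹ : ℝ ≃o ℝ) a - a)
    nlinarith
  have hsub : ball (a : ℂ) R ⊆ ball (a : ℂ) ρ := ball_subset_ball (by linarith)
  refine ⟨F, F', hF.mono (by simp; linarith), hF'.mono (by simp; linarith), fun z hz => ?_⟩
  have hz1 : ‖z - a‖ ≤ R := by
    rw [mem_ball, dist_eq_norm] at hz
    exact hz.le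
  have key : ∀ G : ℂ → ℂ, ∀ b : ℝ, G a = (b : ℂ) → |b - a| ≤ 2 * |f a - a| →
      ‖(G z - z) - (G a - a)‖ ≤ η / 500 * ‖z - a‖ → ‖G z - z‖ ≤ η * R := by
    intro G b hGb hb2 hl
    have h1 : ‖G a - a‖ = |b - a| := by
      rw [hGb, ← Complex.ofReal_sub, Complex.norm_real, Real.norm_eq_abs]
    have h2 : ‖G z - z‖ ≤ ‖(G z - z) - (G a - a)‖ + ‖G a - a‖ := by
      have := norm_add_le ((G z - z) - (G a - a)) (G a - a)
      rwa [sub_add_cancel] at this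
    nlinarith [norm_nonneg (z - a)]
  refine ⟨key F _ hFa (by linarith [abs_nonneg (f a - a)]) (hlip z hz),
    key F' _ hFa' hinv (hlip' z hz)⟩

/-- an element commuting with `σ` and moving `a` only a little fixes the nearest fixed point -/
theorem gap_fix {σ θ : ℝ ≃o ℝ} {a z : ℝ} (hc : θ * σ = σ * θ) (hz : σ z = z)
    (hmin : ∀ y, σ y = y → |z - a| ≤ |y - a|) (h1 : |θ a - a| < |z - a|)
    (h2 : |(θ⁻¹ : ℝ ≃o ℝ) a - a| < |z - a|) : θ z = z := by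
  have k1 : σ (θ z) = θ z := comm_fix hc hz
  have k2 : σ ((θ⁻¹ : ℝ ≃o ℝ) z) = (θ⁻¹ : ℝ ≃o ℝ) z := comm_fix (comm_inv hc) hz
  have m1 := hmin _ k1
  have m2 := hmin _ k2
  rcases lt_trichotomy z a with h | h | h
  · rw [abs_of_neg (by linarith : z - a < 0)] at *
    have l1 : θ z < θ a := θ.strictMono h
    have l2 : (θ⁻¹ : ℝ ≃o ℝ) z < (θ⁻¹ : ℝ ≃o ℝ) a := (θ⁻¹ : ℝ ≃o ℝ).strictMono h
    have h1' := (abs_lt.mp h1).2
    have h2' := (abs_lt.mp h2).2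
    have n1 : θ z ≤ z := by
      rcases le_abs.mp m1 with q | q <;> linarith
    have n2 : (θ⁻¹ : ℝ ≃o ℝ) z ≤ z := by
      rcases le_abs.mp m2 with q | q <;> linarith
    have n3 : θ ((θ⁻¹ : ℝ ≃o ℝ) z) ≤ θ z := θ.monotone n2
    rw [show θ ((θ⁻¹ : ℝ ≃o ℝ) z) = z from θ.apply_symm_apply z] at n3
    linarith
  · subst h
    rw [sub_self, abs_zero] at h1
    exact absurd h1 (not_lt.mpr (abs_nonneg _))
  · rw [abs_of_pos (by linarith : 0 < z - a)] at *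
    have l1 : θ a < θ z := θ.strictMono h
    have l2 : (θ⁻¹ : ℝ ≃o ℝ) a < (θ⁻¹ : ℝ ≃o ℝ) z := (θ⁻¹ : ℝ ≃o ℝ).strictMono h
    have h1' := (abs_lt.mp h1).1
    have h2' := (abs_lt.mp h2).1
    have n1 : z ≤ θ z := by
      rcases le_abs.mp m1 with q | q <;> linarith
    have n2 : z ≤ (θ⁻¹ : ℝ ≃o ℝ) z := by
      rcases le_abs.mp m2 with q | q <;> linarith
    have n3 : θ z ≤ θ ((θ⁻¹ : ℝ ≃o ℝ) z) := θ.monotone n2
    rw [show θ ((θ⁻¹ : ℝ ≃o ℝ) z) = z from θ.apply_symm_apply z] at n3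
    linarith

/-- a fixed point of the square is a fixed point -/
theorem sq_fix {f : ℝ ≃o ℝ} {z : ℝ} (h : (f * f) z = z) : f z = z := by
  have h' : f (f z) = z := h
  rcases lt_trichotomy (f z) z with q | q | q
  · have := f.strictMono q
    linarith
  · exact q
  · have := f.strictMono q
    linarith

/-- the property which is improved in each step -/
structure Sm (Γ : Subgroup (ℝ ≃o ℝ)) (a z η ρ0 δ : ℝ) (f : ℝ ≃o ℝ) : Prop where
  mem : f ∈ Γ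
  ne : f ≠ 1
  fix : f z = z
  sc : ∃ ρ, 0 < ρ ∧ ρ ≤ ρ0 ∧ NI f a ρ (η / 1000 * ρ) ∧ 8 * |f a - a| ≤ η * ρ
  dz : 4 * |f a - a| ≤ η * |z - a|
  dl : |f a - a| ≤ δ

theorem sm_step (h : Gp Γ) {η a z ρ0 δ : ℝ} (hη : 0 < η) (hη' : η ≤ 1 / 2 ^ 24)
    (ha : ∀ f ∈ Γ, f a = a → f = 1)
    (hbad : ∀ ρ, 0 < ρ → ρ ≤ ρ0 → ∃ f ∈ Γ, f ≠ 1 ∧ NI f a ρ (η / 1000 * ρ))
    {σ : ℝ ≃o ℝ} (hS : Sg Γ σ z) (hmin : ∀ y, σ y = y → |z - a| ≤ |y - a|)
    (hex : ∃ f, Sm Γ a z η ρ0 δ f) : ∃ f, Sm Γ a z η ρ0 (δ / 2) f := by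
  obtain ⟨f, hf⟩ := hex
  obtain ⟨ρ, hρ, hρ0, hN, h8⟩ := hf.sc
  have hη2 : η ≤ 1 / 16777216 := by norm_num at hη' ⊢; exact hη'
  have hfa : 0 < |f a - a| := abs_pos.mpr (sub_ne_zero.mpr fun e => hf.ne (ha f hf.mem e))
  obtain ⟨R, hRdef⟩ : ∃ R, R = 4 * |f a - a| / η := ⟨_, rfl⟩
  have hRη : η * R = 4 * |f a - a| := by rw [hRdef]; field_simp
  have hR : 0 < R := by rw [hRdef]; positivity
  have hRρ : R ≤ ρ / 2 := by
    rw [hRdef, div_le_iff₀ hη]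
    nlinarith
  have hRz : R ≤ |z - a| := by
    rw [hRdef, div_le_iff₀ hη]
    nlinarith [hf.dz]
  obtain ⟨g, hg, hg1, hgN⟩ := hbad R hR (by linarith)
  have hfR : NI f a R (η * R) := ni_restrict hρ hη hη' hN hR hRρ (by rw [hRη])
  have hgR : NI g a R (η * R) := hgN.mono (by simp) (by nlinarith)
  have hcm := (margulis2 h hR hη hη' hf.mem hg hfR hgR).1
  -- f = σ ^ b
  obtain ⟨b, hb⟩ := hS.stab z hS.fix f hf.mem hf.fix
  have hb0 : b ≠ 0 := by
    rintro rfl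
    exact hf.ne (by rw [hb, zpow_zero])
  have hb2 : f * f = σ ^ (b + b) := by rw [zpow_add, ← hb]
  have hcσ : (g * g) * σ = σ * (g * g) := by
    refine hS.comm_of_pow (mul_mem hg hg) (a := b + b) (by omega) ?_
    rw [← hb2]
    exact hcm.symm
  -- displacement of g * g
  have hga : |g a - a| ≤ η / 1000 * R := M2_real hgN (by simpa using hR)
  have hgi : |(g⁻¹ : ℝ ≃o ℝ) a - a| ≤ η / 1000 * R := M2_real hgN.inv (by simpa using hR)
  have hsm : η / 1000 * R < R := by nlinarith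
  have hgg : |(g * g) a - a| < |z - a| := by
    have e : (g * g) a - a = (g (g a) - g a) + (g a - a) := by
      show g (g a) - a = _
      ring
    have h1 : |g (g a) - g a| ≤ η / 1000 * R := M2_real hgN (by linarith)
    rw [e]
    refine (abs_add_le _ _).trans_lt ?_
    nlinarith
  have hggi : |((g * g)⁻¹ : ℝ ≃o ℝ) a - a| < |z - a| := by
    have e : ((g * g)⁻¹ : ℝ ≃o ℝ) a - a =
        ((g⁻¹ : ℝ ≃o ℝ) ((g⁻¹ : ℝ ≃o ℝ) a) - (g⁻¹ : ℝ ≃o ℝ) a) +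
          ((g⁻¹ : ℝ ≃o ℝ) a - a) := by
      rw [mul_inv_rev]
      show (g⁻¹ : ℝ ≃o ℝ) ((g⁻¹ : ℝ ≃o ℝ) a) - a = _
      ring
    have h1 : |(g⁻¹ : ℝ ≃o ℝ) ((g⁻¹ : ℝ ≃o ℝ) a) - (g⁻¹ : ℝ ≃o ℝ) a| ≤ η / 1000 * R :=
      M2_real hgN.inv (by linarith)
    rw [e]
    refine (abs_add_le _ _).trans_lt ?_
    nlinarith
  have hgz : g z = z := sq_fix (gap_fix hcσ hS.fix hmin hgg hggi)
  refine ⟨g, hg, hg1, hgz, ⟨R, hR, by linarith, hgN, ?_⟩, ?_, ?_⟩
  · nlinarith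
  · nlinarith
  · have := hf.dl
    nlinarith

/-- STEP 1: no fixed point near `a` -/
theorem no_fix_near (h : Gp Γ) {η a ρ0 : ℝ} (hη : 0 < η) (hη' : η ≤ 1 / 2 ^ 24)
    (ha : ∀ f ∈ Γ, f a = a → f = 1)
    (hbad : ∀ ρ, 0 < ρ → ρ ≤ ρ0 → ∃ f ∈ Γ, f ≠ 1 ∧ NI f a ρ (η / 1000 * ρ))
    {f : ℝ ≃o ℝ} (hf : f ∈ Γ) (hf1 : f ≠ 1) {ρ : ℝ} (hρ : 0 < ρ) (hρ0 : ρ ≤ ρ0)
    (hN : NI f a ρ (η / 1000 * ρ)) {y : ℝ} (hy : |y - a| ≤ ρ / 4) : f y ≠ y := by
  intro hfy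
  have hη2 : η ≤ 1 / 16777216 := by norm_num at hη' ⊢; exact hη'
  -- the nearest fixed point
  have hKc : IsClosed {t : ℝ | f t = t} := isClosed_eq f.continuous continuous_id
  obtain ⟨z, hzK, hzd⟩ := hKc.exists_infDist_eq_dist ⟨y, hfy⟩ a
  have hmin0 : ∀ t, f t = t → |z - a| ≤ |t - a| := fun t ht => by
    have h1 := infDist_le_dist_of_mem (x := a) (show t ∈ {t : ℝ | f t = t} from ht)
    rw [hzd, dist_comm, dist_comm a t, Real.dist_eq, Real.dist_eq] at h1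
    exact h1
  have hfz : f z = z := hzK
  have hzy : |z - a| ≤ ρ / 4 := (hmin0 y hfy).trans hy
  obtain ⟨σ, hS, b, hb0, hb⟩ := sg_of h hf hf1 hfz
  have hmin : ∀ t, σ t = t → |z - a| ≤ |t - a| := fun t ht =>
    hmin0 t (by rw [hb]; exact (c3_fix hb0 t).mp ht)
  -- displacement of a
  obtain ⟨F, F', hF, hF', hbd⟩ := id hN
  have hdis : |f a - a| ≤ η / 500 * |z - a| := by
    have h1 := M1_lip hρ hF.1 (fun z hz => (hbd z hz).1)
      (show (z : ℂ) ∈ ball (a : ℂ) (ρ - ρ / 2) from M1_mem (by linarith))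
      (show (a : ℂ) ∈ ball (a : ℂ) (ρ - ρ / 2) from mem_ball_self (by linarith))
    rw [show η / 1000 * ρ / (ρ / 2) = η / 500 by field_simp; ring,
      hF.2 a (by simpa using hρ), hF.2 z (by linarith), hfz, sub_self, sub_zero,
      ← Complex.ofReal_sub, ← Complex.ofReal_sub,
      Complex.norm_real, Complex.norm_real, Real.norm_eq_abs, Real.norm_eq_abs,
      abs_sub_comm a z] at h1
    exact h1
  have hz0 := abs_nonneg (z - a)
  have hbase : ∃ g, Sm Γ a z η ρ0 |f a - a| g :=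
    ⟨f, hf, hf1, hfz, ⟨ρ, hρ, hρ0, hN, by nlinarith⟩, by nlinarith, le_rfl⟩
  have hall : ∀ n : ℕ, ∃ g, Sm Γ a z η ρ0 (|f a - a| / 2 ^ n) g := by
    intro n
    induction n with
    | zero => simpa using hbase
    | succ n ih =>
      have := sm_step h hη hη' ha hbad hS hmin ih
      rwa [div_div, ← pow_succ] at this
  -- contradiction
  have hσa : σ a ≠ a := fun e => hS.ne (ha σ hS.mem e)
  have hσi : (σ⁻¹ : ℝ ≃o ℝ) a ≠ a := fun e => by
    apply hσa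
    calc σ a = σ ((σ⁻¹ : ℝ ≃o ℝ) a) := by rw [e]
      _ = a := σ.apply_symm_apply a
  have hm0 : 0 < min |σ a - a| |(σ⁻¹ : ℝ ≃o ℝ) a - a| :=
    lt_min (abs_pos.mpr (sub_ne_zero.mpr hσa)) (abs_pos.mpr (sub_ne_zero.mpr hσi))
  have htend : Tendsto (fun n : ℕ => |f a - a| / 2 ^ n) atTop (𝓝 0) := by
    have := tendsto_pow_atTop_nhds_zero_of_lt_one (r := (1 / 2 : ℝ)) (by norm_num) (by norm_num)
    have h2 := this.const_mul |f a - a|
    rw [mul_zero] at h2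
    refine h2.congr fun n => ?_
    rw [one_div, inv_pow]
    rfl
  obtain ⟨n, hn⟩ := (htend.eventually (gt_mem_nhds hm0)).exists
  obtain ⟨g, hg⟩ := hall n
  obtain ⟨k, hk⟩ := hS.stab z hS.fix g hg.mem hg.fix
  have hk0 : k ≠ 0 := by
    rintro rfl
    exact hg.ne (by rw [hk, zpow_zero])
  have h1 := pow_disp hσa hk0
  rw [← hk] at h1
  have h2 := hg.dl
  linarith

end Pool.Agent.H25.TS
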