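import Mathlib
import Pool.Agent.H25.TS.U1
import Pool.Agent.H52.GS.A15

/-!
# U2: at a bad point all nearby points are sent near `a` by univalent elements (step 2)

`t` small at scale `ρ`, without fixed points near `a`, `t a > a`, `δ = t a - a`.  By `sweep_iter`
`t ^ n` is univalent on `D(a, 10⁶ δ)` with values in `D(a, ρ/2)` as long as
`t ^ n a ≤ a + ρ/10000`.  So we can compose: for all `k` there is `ρ ≤ ρ0/2^k` such that for every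
`y ∈ [a, a + ρ0/10000]` there is `V ∈ Γ`, univalent on `D(a, 100 ρ)`, with
`V⁻¹ y ∈ [a, a + ρ/10000]`.
-/

set_option autoImplicit false
open Set Filter Topology MeasureTheory Metric

namespace Pool.Agent.H25.TS

open Pool.Agent.H52.GS

variable {Γ : Subgroup (ℝ ≃o ℝ)}

theorem uni_sweep {t : ℝ ≃o ℝ} {a ρ η : ℝ} (hρ : 0 < ρ) (hη' : η ≤ 1 / 2 ^ 24)
    (hN : NI t a ρ (η / 1000 * ρ)) (ht : a < t a) {n : ℕ} (hn0 : a ≤ (t ^ n) a)
    (hn : (t ^ n) a ≤ a + ρ / 10000) :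
    ∃ G : ℂ → ℂ, Ext (t ^ n : ℝ ≃o ℝ) G a (1000000 * (t a - a)) ∧
      InjOn G (ball (a : ℂ) (1000000 * (t a - a))) ∧
      ∀ z ∈ ball (a : ℂ) (1000000 * (t a - a)), G z ∈ ball (a : ℂ) (ρ / 2) := by
  obtain ⟨F, F', hF, hF', hb⟩ := hN
  have hη2 : η ≤ 1 / 16777216 := by norm_num at hη' ⊢; exact hη'
  have hF128 : Ext t F a (128 * ρ / 128) := by
    rwa [show 128 * ρ / 128 = ρ by ring]
  have hδ : 0 < t a - a := by linarith
  have h := sweep_iter (G := t) (F := F) (x := a) (R := 128 * ρ) (c := 1 / 2000000)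
    (r := 2000000 * (t a - a)) (n := n) (by norm_num) (by norm_num) (by positivity)
    (by positivity) hF128 (fun z hz => by
      rw [show 128 * ρ / 128 = ρ by ring] at hz
      refine (hb z hz).1.trans ?_
      nlinarith) (by rw [abs_of_pos hδ]; nlinarith)
    (by rw [abs_of_nonneg (by linarith)]; nlinarith)
  rw [show 2000000 * (t a - a) / 2 = 1000000 * (t a - a) by ring,
    show 128 * ρ / 256 = ρ / 2 by ring] at h
  exact ⟨F^[n], ⟨h.2.1, fun y hy => h.2.2.2 y hy⟩, h.1, h.2.2.1⟩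

theorem uni_comp {V W : ℝ ≃o ℝ} {a R r : ℝ} {G : ℂ → ℂ} (hV : Uni V a R)
    (hG : Ext W G a r) (hi : InjOn G (ball (a : ℂ) r))
    (hm : ∀ z ∈ ball (a : ℂ) r, G z ∈ ball (a : ℂ) R) : Uni (V * W : ℝ ≃o ℝ) a r := by
  obtain ⟨F, hF, hFi⟩ := hV
  refine ⟨fun z => F (G z), (Ext.comp hF hG hm : Ext (fun y => V (W y)) _ a r),
    fun z hz w hw e => ?_⟩
  exact hi hz hw (hFi (hm z hz) (hm w hw) e)

theorem uni_one {a R : ℝ} : Uni (1 : ℝ ≃o ℝ) a R :=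
  ⟨fun z => z, ⟨differentiableOn_id, fun _ _ => rfl⟩, injOn_id _⟩

theorem sweep_all (h : Gp Γ) {η a ρ0 : ℝ} (hη : 0 < η) (hη' : η ≤ 1 / 2 ^ 24) (hρ0 : 0 < ρ0)
    (ha : ∀ f ∈ Γ, f a = a → f = 1)
    (hbad : ∀ ρ, 0 < ρ → ρ ≤ ρ0 → ∃ f ∈ Γ, f ≠ 1 ∧ NI f a ρ (η / 1000 * ρ)) (k : ℕ) :
    ∃ ρ, 0 < ρ ∧ ρ ≤ ρ0 / 2 ^ k ∧ ∀ y, a ≤ y → y ≤ a + ρ0 / 10000 →
      ∃ V ∈ Γ, Uni V a (100 * ρ) ∧ a ≤ (V⁻¹ : ℝ ≃o ℝ) y ∧ (V⁻¹ : ℝ ≃o ℝ) y ≤ a + ρ / 10000 := by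
  have hη2 : η ≤ 1 / 16777216 := by norm_num at hη' ⊢; exact hη'
  induction k with
  | zero =>
    refine ⟨ρ0, hρ0, by simp, fun y h1 h2 => ⟨1, one_mem _, uni_one, ?_, ?_⟩⟩
    · rw [inv_one]; exact h1
    · rw [inv_one]; exact h2
  | succ k ih =>
    obtain ⟨ρ, hρ, hρk, hV⟩ := ih
    have hρρ0 : ρ ≤ ρ0 := hρk.trans (div_le_self hρ0.le (one_le_pow₀ (by norm_num)))
    -- the element
    obtain ⟨t, ht, ht1, htN, hta⟩ : ∃ t ∈ Γ, t ≠ 1 ∧ NI t a ρ (η / 1000 * ρ) ∧ a < t a := by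
      obtain ⟨f, hf, hf1, hfN⟩ := hbad ρ hρ hρρ0
      rcases lt_trichotomy (f a) a with q | q | q
      · refine ⟨f⁻¹, inv_mem hf, inv_ne_one.mpr hf1, hfN.inv, ?_⟩
        have := (f⁻¹ : ℝ ≃o ℝ).strictMono q
        rwa [show (f⁻¹ : ℝ ≃o ℝ) (f a) = a from f.symm_apply_apply a] at this
      · exact absurd (ha f hf q) hf1
      · exact ⟨f, hf, hf1, hfN, q⟩
    have hδ : 0 < t a - a := by linarith
    have hδ2 : t a - a ≤ η / 1000 * ρ := by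
      have := M2_real htN (y := a) (by simpa using hρ)
      rwa [abs_of_pos hδ] at this
    have hnf : ∀ y, |y - a| ≤ ρ / 4 → t y ≠ y := fun y hy =>
      no_fix_near h hη hη' ha hbad ht ht1 hρ hρρ0 htN hy
    refine ⟨10000 * (t a - a), by positivity, ?_, fun y h1 h2 => ?_⟩
    · rw [pow_succ, ← div_div]
      nlinarith
    obtain ⟨V, hVm, hVu, hV1, hV2⟩ := hV y h1 h2
    obtain ⟨n, n1, n2, n3, n4, n5⟩ := a15_orbit hV1 hta (fun z hz => hnf z (by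
      rw [abs_of_nonneg (by linarith [hz.1])]
      linarith [hz.2]))
    obtain ⟨G, hG, hGi, hGm⟩ := uni_sweep hρ hη' htN hta n1 (n2.trans hV2)
    refine ⟨V * t ^ n, mul_mem hVm (pow_mem ht n), ?_, ?_, ?_⟩
    · rw [show 100 * (10000 * (t a - a)) = 1000000 * (t a - a) by ring]
      exact uni_comp hVu hG hGi fun z hz => ball_subset_ball (by linarith) (hGm z hz)
    · rw [mul_inv_rev]
      exact n3
    · rw [mul_inv_rev]
      have : ((t ^ n)⁻¹ : ℝ ≃o ℝ) ((V⁻¹ : ℝ ≃o ℝ) y) < t a := n4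
      show ((t ^ n)⁻¹ : ℝ ≃o ℝ) ((V⁻¹ : ℝ ≃o ℝ) y) ≤ _
      linarith

end Pool.Agent.H25.TS
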