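import Mathlib
import Pool.Agent.H25.TS.U2
import Pool.Agent.H52.GS.E1

/-!
# U3: almost every point has arbitrarily small thick scales

`E` is invariant, of positive measure in every interval, and `a` is a thin point at which `E` has
small density.  If all small scales at `a` were bad, `sweep_all` would send every point
`y ∈ E ∩ [a, a + ρ0/10000]` near `a` with bounded distortion at arbitrarily small scales, so `E`
would have small density at `y`.
-/

set_option autoImplicit false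
open Set Filter Topology MeasureTheory Metric

namespace Pool.Agent.H25.TS

open Pool.Agent.H52.GS

variable {Γ : Subgroup (ℝ ≃o ℝ)}

/-- image of a set under a Lipschitz map -/
theorem vol_image {V : ℝ → ℝ} {S : Set ℝ} {L : ℝ} (hL : 0 ≤ L)
    (h : ∀ p ∈ S, ∀ q ∈ S, |V p - V q| ≤ L * |p - q|) :
    volume (V '' S) ≤ ENNReal.ofReal L * volume S := by
  have h1 : LipschitzOnWith (Real.toNNReal L) V S := LipschitzOnWith.of_dist_le_mul
    fun p hp q hq => by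
      rw [Real.dist_eq, Real.dist_eq, Real.coe_toNNReal L hL]
      exact h p hp q hq
  have h2 := h1.hausdorffMeasure_image_le (d := 1) zero_le_one
  rw [hausdorffMeasure_real, ENNReal.rpow_one] at h2
  exact h2

/-- one scale -/
theorem dens_step {E : Set ℝ} {V : ℝ ≃o ℝ} {a ρ y : ℝ} (hρ : 0 < ρ) (hU : Uni V a (100 * ρ))
    (hE : ∀ x, V x ∈ E ↔ x ∈ E) (hy1 : a ≤ (V⁻¹ : ℝ ≃o ℝ) y)
    (hy2 : (V⁻¹ : ℝ ≃o ℝ) y ≤ a + ρ / 10000)
    (hd : volume (E ∩ closedBall a ρ) ≤ ENNReal.ofReal (ρ / 5)) :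
    volume (E ∩ closedBall y (deriv (V : ℝ → ℝ) a * ρ / 2)) ≤
      ENNReal.ofReal (deriv (V : ℝ → ℝ) a * ρ / 2) := by
  have hR : 0 < 100 * ρ := by positivity
  obtain ⟨lam, hlam⟩ : ∃ lam, lam = deriv (V : ℝ → ℝ) a := ⟨_, rfl⟩
  have hlam0 : 0 < lam := by
    rw [hlam]
    exact (hU.diff (y := a) (by simpa using hR)).2
  have hup : ∀ p q, |p - a| ≤ ρ → |q - a| ≤ ρ → |V p - V q| ≤ 11 / 10 * lam * |p - q| := by
    intro p q hp hq
    have := Uni.real_le hR (by norm_num : (0 : ℝ) ≤ 1 / 100) (by norm_num) hU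
      (p := p) (q := q) (by linarith) (by linarith)
    rw [← hlam] at this
    have h1 : (9 / 10 : ℝ) ≤ (1 - 1 / 100) ^ 4 := by norm_num
    have h2 := abs_nonneg (V p - V q)
    have h3 := mul_nonneg hlam0.le (abs_nonneg (p - q))
    have h4 : (10 / 11 : ℝ) ≤ (1 - 1 / 100) ^ 4 := by norm_num
    nlinarith
  have hlo : ∀ p q, |p - a| ≤ ρ → |q - a| ≤ ρ → 9 / 10 * (lam * |p - q|) ≤ |V p - V q| := by
    intro p q hp hq
    have := Uni.le_real hR (by norm_num : (0 : ℝ) ≤ 1 / 100) (by norm_num) hU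
      (p := p) (q := q) (by linarith) (by linarith)
    rw [← hlam] at this
    have h1 : (9 / 10 : ℝ) ≤ (1 - 1 / 100) ^ 4 := by norm_num
    have h3 := mul_nonneg hlam0.le (abs_nonneg (p - q))
    nlinarith
  rw [← hlam]
  obtain ⟨x, hx⟩ : ∃ x, x = (V⁻¹ : ℝ ≃o ℝ) y := ⟨_, rfl⟩
  have hVx : V x = y := by rw [hx]; exact V.apply_symm_apply y
  rw [← hx] at hy1 hy2
  -- the ball around y is covered
  have hsub : E ∩ closedBall y (lam * ρ / 2) ⊆ V '' (E ∩ closedBall a ρ) := by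
    rintro e ⟨he, hey⟩
    obtain ⟨e', he'⟩ : ∃ e', e' = (V⁻¹ : ℝ ≃o ℝ) e := ⟨_, rfl⟩
    have hVe : V e' = e := by rw [he']; exact V.apply_symm_apply e
    refine ⟨e', ⟨(hE e').mp (by rwa [hVe]), ?_⟩, hVe⟩
    rw [Real.closedBall_eq_Icc] at hey
    rw [Real.closedBall_eq_Icc]
    constructor
    · by_contra hc
      push Not at hc
      have h1 := V.strictMono hc
      have h2 := hlo x (a - ρ) (by rw [abs_of_nonneg (by linarith)]; linarith)
        (by rw [abs_of_nonpos (by linarith)]; linarith)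
      have h3 : V (a - ρ) ≤ V x := V.monotone (by linarith)
      rw [abs_of_nonneg (by linarith), abs_of_nonneg (by linarith)] at h2
      rw [hVe] at h1
      rw [hVx] at h2 h3
      nlinarith [hey.1]
    · by_contra hc
      push Not at hc
      have h1 := V.strictMono hc
      have h2 := hlo x (a + ρ) (by rw [abs_of_nonneg (by linarith)]; linarith)
        (by rw [abs_of_nonneg (by linarith)]; linarith)
      have h3 : V x ≤ V (a + ρ) := V.monotone (by linarith)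
      rw [abs_of_nonpos (by linarith), abs_of_nonpos (by linarith)] at h2
      rw [hVe] at h1
      rw [hVx] at h2 h3
      nlinarith [hey.2]
  refine (measure_mono hsub).trans ((vol_image (L := 11 / 10 * lam) (by positivity)
    fun p hp q hq => hup p q ?_ ?_).trans ?_)
  · have := hp.2
    rwa [mem_closedBall, Real.dist_eq] at this
  · have := hq.2
    rwa [mem_closedBall, Real.dist_eq] at this
  · refine (mul_le_mul_right hd _).trans ?_
    rw [← ENNReal.ofReal_mul (by positivity)]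
    exact ENNReal.ofReal_le_ofReal (by nlinarith)

theorem thick2 (h : Gp Γ) {η a : ℝ} (hη : 0 < η) (hη' : η ≤ 1 / 2 ^ 24) {E : Set ℝ}
    (hinv : ∀ g ∈ Γ, ∀ x, g x ∈ E ↔ x ∈ E)
    (hpos : ∀ x y : ℝ, x < y → volume (E ∩ Ioo x y) ≠ 0)
    (ha : ∀ f ∈ Γ, f a = a → f = 1)
    (hthin : ∀ ε > 0, ∃ r0 > 0, ∀ r : ℝ, 0 < r → r ≤ r0 → ∀ w ∈ Γ, Uni w a r →
      deriv (w : ℝ → ℝ) a * r ≤ ε)
    (hdens : ∃ δ > 0, ∀ t : ℝ, 0 < t → t ≤ δ →
      volume (E ∩ closedBall a t) ≤ ENNReal.ofReal (t / 5)) {ρ0 : ℝ} (hρ0 : 0 < ρ0) :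
    ∃ ρ, 0 < ρ ∧ ρ ≤ ρ0 ∧ ∀ f ∈ Γ, f ≠ 1 → ¬ NI f a ρ (η / 1000 * ρ) := by
  by_contra hcon
  have hbad : ∀ ρ, 0 < ρ → ρ ≤ ρ0 → ∃ f ∈ Γ, f ≠ 1 ∧ NI f a ρ (η / 1000 * ρ) := by
    intro ρ h1 h2
    by_contra hc
    exact hcon ⟨ρ, h1, h2, fun f hf hf1 hN => hc ⟨f, hf, hf1, hN⟩⟩
  -- a density point of E near a
  have hE1 := hpos a (a + ρ0 / 10000) (by linarith [show 0 < ρ0 / 10000 by positivity])
  obtain ⟨y, ⟨hyE, hy⟩, hdy⟩ : ∃ y ∈ E ∩ Ioo a (a + ρ0 / 10000),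
      ∃ δ : ℝ, 0 < δ ∧ ∀ t : ℝ, 0 < t → t ≤ δ →
        ENNReal.ofReal (3 / 4 * (2 * t)) < volume (E ∩ closedBall y t) := by
    by_contra hc
    push Not at hc
    apply hE1
    rw [measure_eq_zero_iff_ae_notMem]
    filter_upwards [e1_ae E (θ := 3 / 4) (by norm_num) (by norm_num)] with y hy1 hy2
    obtain ⟨δ, h1, h2⟩ := hy1 hy2.1
    obtain ⟨t, h3, h4, h5⟩ := hc y hy2 δ h1
    exact absurd (h2 t h3 h4) (not_lt.mpr h5)
  obtain ⟨δ1, hδ1, hd1⟩ := hdy
  obtain ⟨δ2, hδ2, hd2⟩ := hdens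
  obtain ⟨r0, hr0, hr⟩ := hthin δ1 hδ1
  -- the scale
  have htend : Tendsto (fun n : ℕ => ρ0 / 2 ^ n) atTop (𝓝 0) := by
    have := tendsto_pow_atTop_nhds_zero_of_lt_one (r := (1 / 2 : ℝ)) (by norm_num) (by norm_num)
    have h2 := this.const_mul ρ0
    rw [mul_zero] at h2
    refine h2.congr fun n => ?_
    rw [one_div, inv_pow]
    rfl
  obtain ⟨k, hk⟩ := (htend.eventually (gt_mem_nhds
    (show 0 < min δ2 (r0 / 100) from lt_min hδ2 (by positivity)))).exists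
  obtain ⟨ρ, hρ, hρk, hV⟩ := sweep_all h hη hη' hρ0 ha hbad k
  obtain ⟨V, hVm, hVu, hV1, hV2⟩ := hV y hy.1.le hy.2.le
  have hlam : 0 < deriv (V : ℝ → ℝ) a := (hVu.diff (y := a) (by simpa using hρ)).2
  have hρ2 : ρ ≤ δ2 := by linarith [min_le_left δ2 (r0 / 100)]
  have hρr : 100 * ρ ≤ r0 := by linarith [min_le_right δ2 (r0 / 100)]
  have h1 := hr (100 * ρ) (by positivity) hρr V hVm hVu
  have h2 := dens_step hρ hVu (hinv V hVm) hV1 hV2 (hd2 ρ hρ hρ2)
  have hpos' : 0 < deriv (V : ℝ → ℝ) a * ρ := by positivity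
  have h3 := hd1 (deriv (V : ℝ → ℝ) a * ρ / 2) (by positivity) (by linarith)
  have h4 := h3.trans_le h2
  rw [ENNReal.ofReal_lt_ofReal_iff (by positivity)] at h4
  linarith

/-- almost every point has arbitrarily small thick scales -/
theorem thick_ae (h : Gp Γ) {A : Set ℝ} (hA : MeasurableSet A)
    (hinv : ∀ f ∈ Γ, ∀ x, f x ∈ A ↔ x ∈ A)
    (hpos : ∀ x y : ℝ, x < y → volume (A ∩ Ioo x y) ≠ 0 ∧ volume (Ioo x y \ A) ≠ 0) :
    ∃ ηT > 0, ∀ᵐ a : ℝ, ∀ ρ0 > 0, ∃ ρ : ℝ, 0 < ρ ∧ ρ ≤ ρ0 ∧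
      ∀ f ∈ Γ, f ≠ 1 → ¬ NI f a ρ (ηT * ρ) := by
  refine ⟨1 / 2 ^ 24 / 1000, by positivity, ?_⟩
  have hcompl : ∀ S : Set ℝ, MeasurableSet S → ∀ a t : ℝ, 0 < t →
      ENNReal.ofReal (9 / 10 * (2 * t)) < volume (S ∩ closedBall a t) →
      volume (Sᶜ ∩ closedBall a t) ≤ ENNReal.ofReal (t / 5) := by
    intro S hS a t ht hlt
    have h1 := measure_inter_add_diff (μ := volume) (closedBall a t) hS
    rw [Real.volume_closedBall, inter_comm, diff_eq, inter_comm _ Sᶜ] at h1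
    by_contra hc
    push Not at hc
    have h2 : ENNReal.ofReal (9 / 10 * (2 * t)) + ENNReal.ofReal (t / 5) <
        ENNReal.ofReal (2 * t) := by
      rw [← h1]
      exact ENNReal.add_lt_add hlt hc
    rw [← ENNReal.ofReal_add (by positivity) (by positivity),
      ENNReal.ofReal_lt_ofReal_iff (by positivity)] at h2
    linarith
  filter_upwards [e1_fix h, h.thin, e1_ae A (θ := 9 / 10) (by norm_num) (by norm_num),
    e1_ae Aᶜ (θ := 9 / 10) (by norm_num) (by norm_num)] with a ha hthin hdA hdAc ρ0 hρ0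
  by_cases haA : a ∈ A
  · obtain ⟨δ, hδ, hd⟩ := hdA haA
    refine thick2 h (by norm_num) le_rfl (E := Aᶜ)
      (fun g hg x => by rw [mem_compl_iff, mem_compl_iff, hinv g hg])
      (fun x y hxy => ?_) ha hthin ⟨δ, hδ, fun t ht htδ => hcompl A hA a t ht (hd t ht htδ)⟩ hρ0
    have := (hpos x y hxy).2
    rwa [diff_eq, inter_comm] at this
  · obtain ⟨δ, hδ, hd⟩ := hdAc haA
    refine thick2 h (by norm_num) le_rfl (E := A) hinv (fun x y hxy => (hpos x y hxy).1) ha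
      hthin ⟨δ, hδ, fun t ht htδ => ?_⟩ hρ0
    have := hcompl Aᶜ hA.compl a t ht (hd t ht htδ)
    rwa [compl_compl] at this

end Pool.Agent.H25.TS
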