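import Mathlib
import Pool.Agent.H25.TS.U3

/-!
# U4: the Margulis lemma in the form used by the stages
-/

set_option autoImplicit false
open Set Filter Topology MeasureTheory Metric

namespace Pool.Agent.H25.TS

open Pool.Agent.H52.GS

variable {Γ : Subgroup (ℝ ≃o ℝ)}

theorem margulis_sq (h : Gp Γ) : ∃ ηM > 0, ∀ x R : ℝ, 0 < R → R ≤ 1 → ∀ f ∈ Γ, ∀ g ∈ Γ,
    NI f x R (ηM * R) → NI g x R (ηM * R) → f ^ 2 * g ^ 2 = g ^ 2 * f ^ 2 := by
  refine ⟨1 / 2 ^ 24, by positivity, fun x R hR _ f hf g hg h1 h2 => ?_⟩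
  rw [pow_two, pow_two]
  exact (margulis2 h hR (by norm_num) le_rfl hf hg h1 h2).1

end Pool.Agent.H25.TS
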