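import Mathlib
import Pool.Agent.H25.TS.U4
import Pool.Agent.H52.GS.Main

/-!
# U5: the contradiction, from thickness almost everywhere (copies of helper52's `choose_pt` and
`main_core` with the weaker hypothesis), and `main_false2` without any hypothesis on torsion
-/

set_option autoImplicit false
open Set Filter Topology MeasureTheory Metric

namespace Pool.Agent.H25.TS

open Pool.Agent.H52.GS

theorem choose_pt2 {Γ : Subgroup (ℝ ≃o ℝ)} (h : Gp Γ) {ηT : ℝ}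
    (hthk : ∀ᵐ a : ℝ, ∀ ρ0 : ℝ, 0 < ρ0 →
      ∃ ρ : ℝ, 0 < ρ ∧ ρ ≤ ρ0 ∧ ∀ f ∈ Γ, f ≠ 1 → ¬ NI f a ρ (ηT * ρ / 2))
    {ε τ : ℝ} (hε : 0 < ε) (hτ : 0 < τ) (hτ1 : τ ≤ 1) :
    ∃ re α β a ρ : ℝ, 0 < re ∧ α < a ∧ a < β ∧ 0 < ρ ∧ ρ ≤ 1 ∧
      128 * ρ ≤ ph0 α β a ∧ ph0 α β a ≤ 1024 * ρ ∧ β - α ≤ 1 ∧
      (∀ x, ph0 α β x ≤ re ∧ ph0 α β x ≤ 1) ∧
      (∀ f ∈ Γ, f ≠ 1 → ¬ NI f a ρ (ηT * ρ / 2)) ∧
      ∀ x ∈ Ioo α β, (∃ y ∈ XX Γ ε re, x ≤ y ∧ y ≤ x + τ * ph0 α β x) ∧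
        ∃ y ∈ XX Γ ε re, y ≤ x ∧ x - τ * ph0 α β x ≤ y := by
  obtain ⟨re, hre, hX⟩ := e1_XX h hε
  obtain ⟨X, hXdef⟩ : ∃ X, X = XX Γ ε re := ⟨_, rfl⟩
  rw [← hXdef] at hX
  obtain ⟨τ', hτ'⟩ : ∃ τ', τ' = τ / 10000 := ⟨_, rfl⟩
  have hτ'0 : 0 < τ' := by rw [hτ']; positivity
  have hτ'1 : τ' ≤ 1 := by rw [hτ']; linarith
  obtain ⟨t0, ht0, hY⟩ := e1_unif hX (θ := 1 - τ' / 8) (by linarith) (by linarith)
  obtain ⟨Y, hYdef⟩ : ∃ Y, Y = {p | p ∈ X ∧ ∀ t : ℝ, 0 < t → t ≤ t0 →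
      ENNReal.ofReal ((1 - τ' / 8) * (2 * t)) < volume (X ∩ closedBall p t)} := ⟨_, rfl⟩
  rw [← hYdef] at hY
  have hYm : ∀ p ∈ Y, ∀ t : ℝ, 0 < t → t ≤ t0 →
      ENNReal.ofReal ((1 - τ' / 8) * (2 * t)) < volume (X ∩ closedBall p t) := by
    intro p hp
    rw [hYdef] at hp
    exact hp.2
  obtain ⟨a, haY, hae, hathk⟩ := ((frequently_ae_mem_iff.2 hY).and_eventually
    ((e1_ae Y (θ := 9 / 10) (by norm_num) (by norm_num)).and hthk)).exists
  obtain ⟨t1, ht1, had⟩ := hae haY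
  have hM : 0 < min (min t1 t0) (min re 1) := lt_min (lt_min ht1 ht0) (lt_min hre one_pos)
  obtain ⟨ρ, hρ, hρ0, hNI⟩ := hathk (min (min t1 t0) (min re 1) / 10 ^ 8) (by positivity)
  have hρM : 10 ^ 8 * ρ ≤ min (min t1 t0) (min re 1) := by
    rw [le_div_iff₀ (by norm_num)] at hρ0
    linarith
  have g1 : 10 ^ 8 * ρ ≤ t1 := hρM.trans ((min_le_left _ _).trans (min_le_left _ _))
  have g2 : 10 ^ 8 * ρ ≤ t0 := hρM.trans ((min_le_left _ _).trans (min_le_right _ _))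
  have g3 : 10 ^ 8 * ρ ≤ re := hρM.trans ((min_le_right _ _).trans (min_le_left _ _))
  have g4 : 10 ^ 8 * ρ ≤ 1 := hρM.trans ((min_le_right _ _).trans (min_le_right _ _))
  obtain ⟨s, hs⟩ : ∃ s, s = 10000 * ρ := ⟨_, rfl⟩
  have hs0 : 0 < s := by rw [hs]; positivity
  have had' := had (1000 * s) (by positivity) (by rw [hs]; linarith)
  obtain ⟨α, hαY, hα1, hα2⟩ := e1_hit (X := Y) (p := a) (r := 1000 * s) (u := a - 1000 * s)
    (v := a - 200 * s) (by linarith) (by linarith) (by linarith)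
    (lt_of_le_of_lt (ENNReal.ofReal_le_ofReal (by linarith)) had')
  obtain ⟨β, hβY, hβ1, hβ2⟩ := e1_hit (X := Y) (p := a) (r := 1000 * s) (u := a + 200 * s)
    (v := a + 1000 * s) (by linarith) (by linarith) (by linarith)
    (lt_of_le_of_lt (ENNReal.ofReal_le_ofReal (by linarith)) had')
  have hph : ∀ x, ph0 α β x ≤ 1000 * ρ := by
    intro x
    unfold ph0
    rw [div_le_iff₀ (by norm_num)]
    refine max_le (by positivity) ?_
    rcases le_total (x - α) (β - x) with h1 | h1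
    · refine (min_le_left _ _).trans ?_
      rw [hs] at *
      linarith
    · refine (min_le_right _ _).trans ?_
      rw [hs] at *
      linarith
  refine ⟨re, α, β, a, ρ, hre, by linarith, by linarith, hρ, by linarith, ?_, ?_, ?_, ?_, hNI, ?_⟩
  · unfold ph0
    rw [le_div_iff₀ (by norm_num)]
    refine le_trans ?_ (le_max_right _ _)
    refine le_min ?_ ?_
    · rw [hs] at *
      linarith
    · rw [hs] at *
      linarith
  · have := hph a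
    linarith
  · rw [hs] at *
    linarith
  · intro x
    have := hph x
    exact ⟨by linarith, by linarith⟩
  · rintro x ⟨hx1, hx2⟩
    rw [← hXdef]
    rcases le_total (x - α) (β - x) with h1 | h1
    · obtain ⟨t, ht⟩ : ∃ t, t = x - α := ⟨_, rfl⟩
      have htp : 0 < t := by linarith
      have hpx : τ * ph0 α β x = τ' * t := by
        unfold ph0
        rw [min_eq_left h1, ← ht, max_eq_right htp.le, hτ']
        ring
      have h2 : 2 * t ≤ t0 := by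
        rw [hs] at *
        linarith
      have h3 := hYm α hαY (2 * t) (by linarith) h2
      have h4 : 0 < τ' * t := mul_pos hτ'0 htp
      have h5 : τ' * t ≤ t := mul_le_of_le_one_left htp.le hτ'1
      have h6 : 2 * (2 * t) - τ' * t ≤ (1 - τ' / 8) * (2 * (2 * t)) := by linarith
      rw [hpx]
      constructor
      · exact e1_hit (p := α) (r := 2 * t) (by linarith) (by linarith) (by linarith)
          (lt_of_le_of_lt (ENNReal.ofReal_le_ofReal (by linarith)) h3)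
      · obtain ⟨y, hy, hy1, hy2⟩ := e1_hit (X := X) (p := α) (r := 2 * t) (u := x - τ' * t)
          (v := x) (by linarith) (by linarith) (by linarith)
          (lt_of_le_of_lt (ENNReal.ofReal_le_ofReal (by linarith)) h3)
        exact ⟨y, hy, hy2, hy1⟩
    · obtain ⟨t, ht⟩ : ∃ t, t = β - x := ⟨_, rfl⟩
      have htp : 0 < t := by linarith
      have hpx : τ * ph0 α β x = τ' * t := by
        unfold ph0
        rw [min_eq_right h1, ← ht, max_eq_right htp.le, hτ']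
        ring
      have h2 : 2 * t ≤ t0 := by
        rw [hs] at *
        linarith
      have h3 := hYm β hβY (2 * t) (by linarith) h2
      have h4 : 0 < τ' * t := mul_pos hτ'0 htp
      have h5 : τ' * t ≤ t := mul_le_of_le_one_left htp.le hτ'1
      have h6 : 2 * (2 * t) - τ' * t ≤ (1 - τ' / 8) * (2 * (2 * t)) := by linarith
      rw [hpx]
      constructor
      · exact e1_hit (p := β) (r := 2 * t) (by linarith) (by linarith) (by linarith)
          (lt_of_le_of_lt (ENNReal.ofReal_le_ofReal (by linarith)) h3)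
      · obtain ⟨y, hy, hy1, hy2⟩ := e1_hit (X := X) (p := β) (r := 2 * t) (u := x - τ' * t)
          (v := x) (by linarith) (by linarith) (by linarith)
          (lt_of_le_of_lt (ENNReal.ofReal_le_ofReal (by linarith)) h3)
        exact ⟨y, hy, hy2, hy1⟩

theorem main_core2 {Γ : Subgroup (ℝ ≃o ℝ)} (h : Gp Γ) {ηM ηT : ℝ} (hηM : 0 < ηM) (hηT : 0 < ηT)
    (hcom : ∀ x R : ℝ, 0 < R → R ≤ 1 → ∀ f ∈ Γ, ∀ g ∈ Γ, NI f x R (ηM * R) →
        NI g x R (ηM * R) → f ^ 2 * g ^ 2 = g ^ 2 * f ^ 2)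
    (hthk : ∀ᵐ a : ℝ, ∀ ρ0 : ℝ, 0 < ρ0 →
      ∃ ρ : ℝ, 0 < ρ ∧ ρ ≤ ρ0 ∧ ∀ f ∈ Γ, f ≠ 1 → ¬ NI f a ρ (ηT * ρ / 2))
    {S : Set (ℝ ≃o ℝ)} (hSf : S.Finite)
    (hSΓ : S ⊆ Γ) (h1 : (1 : ℝ ≃o ℝ) ∈ S) (hgen : ∀ f ∈ Γ, ∃ n, f ∈ BB S n) : False := by
  obtain ⟨e, he⟩ := cst_exists (Γ := Γ) hηM hηT hcom
  obtain ⟨ε0, hε0, hst⟩ := stages hηT h he hSf hSΓ h1
  obtain ⟨c0, hc0, hexp⟩ := h.expd
  have hε : 0 < min ε0 (c0 / 80) := lt_min hε0 (by positivity)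
  have hε1 : min ε0 (c0 / 80) ≤ ε0 := min_le_left _ _
  have hε2 : min ε0 (c0 / 80) ≤ c0 / 80 := min_le_right _ _
  generalize min ε0 (c0 / 80) = ε at hε hε1 hε2
  have hc := he.c0
  have hc1 := he.c1
  have hκ := he.κ0
  have hκ1 := he.κ1
  obtain ⟨re, α, β, a, ρ, hre, hα, hβ, hρ, hρ1, hρa, hρb, hαβ, hph, hthick, hnear⟩ :=
    choose_pt2 h hthk (ε := ε) (τ := e.c * e.κ) hε (by positivity) (by nlinarith)
  have hgeo : Geo Γ ηT e α β a re (XX Γ ε re) :=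
    { hα := hα
      hβ := hβ
      ph1 := fun x => (hph x).2
      phre := fun x => (hph x).1
      thick := ⟨ρ, hρ, hρa, hρb, hthick⟩
      near := hnear }
  refine no_expand (Γ := Γ) (c0 := c0) (ε := ε) (α := α) (β := β) (a := a) hexp hε
    (by linarith) hα hβ ?_
  intro w hw x hx
  obtain ⟨n, hn⟩ := hgen w hw
  obtain ⟨-, φ, hφ, hφw⟩ := hst ε re α β a hε hε1 hgeo n
  have ha0 : 0 < ph0 α β a := by linarith
  have hxJ : x ∈ JJ φ a := by
    intro y hy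
    have hya : |y - a| ≤ |x - a| := abs_sub_left_of_mem_uIcc hy
    have h2 := (abs_le.1 (ph0_lip α β y a)).1
    rw [hφ y (by linarith)]
    have h3 : |y - a| / 10000 ≤ ph0 α β a / 10000 := by linarith
    linarith
  have h4 := hφw w (BB_mono h1 (Nat.le_succ n) hn) x hxJ
  rwa [hφ x (by linarith)] at h4

/-- a group of lifts with the standing properties and an invariant set which is neither null nor
conull in any interval does not exist -/
theorem main_false2 {Γ : Subgroup (ℝ ≃o ℝ)} (h : Gp Γ) {A : Set ℝ} (hA : MeasurableSet A)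
    (hinv : ∀ f ∈ Γ, ∀ x, f x ∈ A ↔ x ∈ A)
    (hpos : ∀ x y : ℝ, x < y → volume (A ∩ Ioo x y) ≠ 0 ∧ volume (Ioo x y \ A) ≠ 0)
    {S : Set (ℝ ≃o ℝ)} (hSf : S.Finite)
    (hSΓ : S ⊆ Γ) (h1 : (1 : ℝ ≃o ℝ) ∈ S) (hgen : ∀ f ∈ Γ, ∃ n, f ∈ BB S n) : False := by
  obtain ⟨ηM, hηM, hcom⟩ := margulis_sq h
  obtain ⟨ηT, hηT, hthk⟩ := thick_ae h hA hinv hpos
  refine main_core2 h hηM (ηT := 2 * ηT) (by positivity) hcom ?_ hSf hSΓ h1 hgen
  filter_upwards [hthk] with a ha ρ0 hρ0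
  obtain ⟨ρ, h2, h3, h4⟩ := ha ρ0 hρ0
  refine ⟨ρ, h2, h3, ?_⟩
  rwa [show 2 * ηT * ρ / 2 = ηT * ρ by ring]

end Pool.Agent.H25.TS
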