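import Mathlib
import Pool.Agent.H25.TS.U5
import Pool.Agent.H50.GSD.D15
import Pool.Agent.H50.GSD.D16
import Pool.Agent.H50.GSD.D17

/-!
# Full real-analytic theorem: a finitely generated group of real-analytic circle diffeomorphisms
acting minimally is Lebesgue ergodic
-/

set_option autoImplicit false
open Set Filter Topology MeasureTheory Metric

namespace Pool.Agent.H25.TS

open Pool.Agent.H52.GS Pool.Agent.H50.GSD Pool.Agent.H50.GS

theorem full {G : Subgroup (Circle ≃ₜ Circle)} (hG : AnGroup G) (hfg : G.FG)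
    (hm : Minimal G) : LebErgodic G := by
  by_contra hne
  have hfix := exists_fix_fg (an_c2 hG) hm hfg (Lf_rat hG hne)
  obtain ⟨A, hA, hinv, hpos⟩ := inv_set (an_c2 hG) hm hne
  obtain ⟨S, hSf, hSΓ, h1, -, hgen⟩ := Lf_gen (an_c2 hG) hfg
  exact main_false2 (gp' hG hm hne hfg hfix) hA hinv hpos hSf hSΓ h1 hgen

end Pool.Agent.H25.TS
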